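import Pool.Agent.Helper24.CanRed.KL2

set_option autoImplicit false

namespace Pool.Agent.Helper24.CanRed

variable {x y z g M a b c A B C : ℤ}

theorem H.vX (h : H x y z g M a b c A B C) (hS : S x y z (M - (b + 1) * y + x)) :
    ∃ μ ν : ℤ, b + 1 ≤ μ ∧ 0 ≤ ν ∧ ν ≤ C - 1 ∧ M - (b + 1) * y + x = μ * y + ν * z := by
  have hB := h.hB
  have hC := h.hC
  have haA := h.haA
  have ha := h.ha
  have hb := h.hb
  have hc := h.hc
  have hMv := h.hM
  have hrel := h.hrel
  obtain ⟨p, μ, ν, hp, hμ, hν, he⟩ := hS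
  have hp0 : p = 0 := by
    by_contra hne
    exact h.mY ⟨p - 1, μ, ν, by omega, hμ, hν, by linarith⟩
  subst hp0
  have hνC : ν ≤ C - 1 := by
    by_contra hcon
    push Not at hcon
    obtain ⟨i, hi, h1, h2, h3⟩ := h.hPhi (A - 1) (b + 1 + μ - B) (ν - C) (by linarith)
      (by linarith) (by linarith) (by linear_combination (-1) * he + hrel)
    rcases eq_or_lt_of_le hi with h0 | h0
    · rw [← h0] at h1; linarith
    · have : 1 * A ≤ i * A := mul_le_mul_of_nonneg_right (by linarith) (by linarith)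
      linarith
  refine ⟨μ, ν, ?_, hν, hνC, by linarith⟩
  by_contra hcon
  exact h.Yx ⟨a, b - μ, c - ν, ha, by omega, by linarith, by linear_combination hMv - he⟩

theorem H.vZ (h : H x y z g M a b c A B C) (hS : S x y z (M - (b + 1) * y + z)) :
    ∃ j μ : ℤ, 0 ≤ j ∧ j < a ∧ b + 1 ≤ μ ∧ M - (b + 1) * y + z = j * x + μ * y := by
  have hB := h.hB
  have hC := h.hC
  have haA := h.haA
  have ha := h.ha
  have hb := h.hb
  have hc := h.hc
  have hMv := h.hM
  have hrel := h.hrel
  obtain ⟨j, μ, ν, hj, hμ, hν, he⟩ := hS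
  have hν0 : ν = 0 := by
    by_contra hne
    exact h.mY ⟨j, μ, ν - 1, hj, hμ, by omega, by linarith⟩
  subst hν0
  have hja : j < a := by
    by_contra hcon
    push Not at hcon
    have := h.uniqZ (p := j - a) (q := μ + 1) (r := 0) (by linarith) (by linarith) le_rfl
      (by linear_combination (-1) * he + hMv)
    omega
  refine ⟨j, μ, hj, hja, ?_, by linarith⟩
  by_contra hcon
  exact h.Yz ⟨a - j, b - μ, c, by linarith, by omega, by linarith,
    by linear_combination hMv - he⟩

/-- Lemma C. -/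
theorem H.CZ (h : H x y z g M a b c A B C)
    (hII : ∀ p q r : ℤ, Pi x y z A (M + g) p q r → b + 1 ≤ q → c + 1 ≤ r → False)
    {p q r : ℤ} (hP : Pi x y z A (M + g) p q r) (hr : c + 1 ≤ r) (hp : a + 1 ≤ p) :
    2 * a + 1 ≤ p ∧ (2 * a + 2 ≤ p → ∃ q' r' : ℤ, Pi x y z A (M + g) (p - a - 1) q' r' ∧
      b + 1 ≤ q') := by
  have hB := h.hB
  have hC := h.hC
  have haA := h.haA
  have ha := h.ha
  have hb := h.hb
  have hc := h.hc
  have hMv := h.hM
  have hrel := h.hrel
  have hP' := hP
  obtain ⟨hp0, hpA, hq0, hr0, hv⟩ := hP'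
  have hqb : q ≤ b := by
    by_contra hcon
    exact hII p q r hP (by omega) hr
  by_cases h2 : p = 2 * a + 1
  · exact ⟨by omega, fun h3 => by omega⟩
  -- e = Y - x + g not in D
  have hS := h.shift (u := (b + 1) * y) (s := x) S_x h.apY h.Yx
    ⟨p - a - 1, q + 1, r - c, by linarith, by linarith, by linarith,
      by linear_combination (-1) * hv - hMv⟩ (by
      intro hD
      have := h.inD' (p := p - a - 1) (q := q + 1) (r := r - c) (by linarith) (by linarith)
        (by linarith) (by linear_combination (-1) * hv - hMv) hD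
      rcases this with ⟨h3, h4, h5⟩ | ⟨h4, h5⟩
      · exact h.piDown hv 0 (by omega) (by linarith) (by linarith)
      · exact h.piDown hv 1 (by linarith) (by linarith) (by linarith))
  obtain ⟨μ, ν, hμ, hν, hνC, he⟩ := h.vX hS
  have hP2 : Pi x y z A (M + g) (p - a - 1) (q + 1 + μ) (r - c + ν) :=
    ⟨by linarith, by linarith, by linarith, by linarith, by
      linear_combination hv - he + hMv⟩
  have hp2 : 2 * a + 1 ≤ p := by
    by_contra hcon
    have hr2 : 2 * c + 1 ≤ r := by
      by_contra hcon2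
      exact h.piDown hv 0 (by omega) (by linarith) (by omega)
    exact hII _ _ _ hP2 (by linarith) (by linarith)
  exact ⟨hp2, fun _ => ⟨_, _, hP2, by linarith⟩⟩

/-- Lemma E. -/
theorem H.EZ (h : H x y z g M a b c A B C)
    {p q r : ℤ} (hP : Pi x y z A (M + g) p q r) (hr : c + 1 ≤ r) (hp : a ≤ p) :
    (∃ i, 0 ≤ i ∧ p - a ≤ a + i * A ∧ q + 1 ≤ b - i * B ∧ r - c - 1 ≤ c - i * C) ∨
    (∃ j q' : ℤ, 0 ≤ j ∧ j < a ∧ Pi x y z A (M + g) (p - a + j) q' (r - c - 1) ∧
      b + 1 ≤ q') := by
  have hB := h.hB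
  have hC := h.hC
  have haA := h.haA
  have ha := h.ha
  have hb := h.hb
  have hc := h.hc
  have hMv := h.hM
  have hrel := h.hrel
  obtain ⟨hp0, hpA, hq0, hr0, hv⟩ := hP
  have hval : (b + 1) * y - z + g = (p - a) * x + (q + 1) * y + (r - c - 1) * z := by
    linear_combination (-1) * hv - hMv
  by_cases hD : S x y z (M - ((b + 1) * y - z + g))
  · left
    exact h.inD (by linarith) (by linarith) (by linarith) hval hD
  · right
    have hS := h.shift (u := (b + 1) * y) (s := z) S_z h.apY h.Yz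
      ⟨p - a, q + 1, r - c - 1, by linarith, by linarith, by linarith, hval⟩ hD
    obtain ⟨j, μ, hj, hja, hμ, he⟩ := h.vZ hS
    exact ⟨j, q + 1 + μ, hj, hja, ⟨by linarith, by linarith, by linarith, by linarith, by
      linear_combination hv - he + hMv⟩, by linarith⟩

theorem H.claim1 (h : H x y z g M a b c A B C)
    (hII : ∀ p q r : ℤ, Pi x y z A (M + g) p q r → b + 1 ≤ q → c + 1 ≤ r → False)
    {p q r : ℤ} (hP : Pi x y z A (M + g) p q r) (hr : c + 1 ≤ r) : p ≠ a := by
  intro hpa
  have hB := h.hB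
  have hC := h.hC
  have haA := h.haA
  have ha := h.ha
  have hb := h.hb
  have hc := h.hc
  have hMv := h.hM
  have hrel := h.hrel
  have hP' := hP
  obtain ⟨hp0, hpA, hq0, hr0, hv⟩ := hP'
  have hqb : q ≤ b - 1 := by
    by_contra hcon
    exact h.piUp hv 0 (by linarith) (by omega) (by linarith)
  have hr2 : 2 * c + 1 ≤ r := by
    by_contra hcon2
    exact h.piDown hv 0 (by linarith) (by linarith) (by omega)
  have hr3 : r ≤ 2 * c + 1 := by
    rcases h.EZ hP hr (by linarith) with ⟨i, hi, h1, h2, h3⟩ | ⟨j, q', hj, hja, hP2, hq'⟩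
    · have : 0 ≤ i * C := mul_nonneg hi (by linarith)
      linarith
    · by_contra hcon
      exact hII _ _ _ hP2 hq' (by omega)
  have hreq : r = 2 * c + 1 := by omega
  subst hreq
  subst hpa
  exact h.apZ 1 le_rfl ⟨0, b - q, 0, le_rfl, by linarith, le_rfl, by
    linear_combination hv + hMv⟩

theorem H.step (h : H x y z g M a b c A B C)
    (hII : ∀ p q r : ℤ, Pi x y z A (M + g) p q r → b + 1 ≤ q → c + 1 ≤ r → False)
    {p q r : ℤ} (hP : Pi x y z A (M + g) p q r) (hr : c + 1 ≤ r) (hp : a + 1 ≤ p)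
    (hIH : ∀ p' q' r' : ℤ, Pi x y z A (M + g) p' q' r' → a + 1 ≤ p' → p' < p →
      b + 1 ≤ q' → False) : False := by
  have hB := h.hB
  have hC := h.hC
  have haA := h.haA
  have ha := h.ha
  have hb := h.hb
  have hc := h.hc
  have hMv := h.hM
  have hrel := h.hrel
  obtain ⟨h1, h2⟩ := h.CZ hII hP hr hp
  have hP' := hP
  obtain ⟨hp0, hpA, hq0, hr0, hv⟩ := hP'
  by_cases h3 : 2 * a + 2 ≤ p
  · obtain ⟨q', r', hP2, hq'⟩ := h2 h3
    exact hIH _ _ _ hP2 (by linarith) (by linarith) hq'
  have hpe : p = 2 * a + 1 := by omega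
  have hqb : q ≤ b := by
    by_contra hcon
    exact hII p q r hP (by omega) hr
  rcases h.EZ hP hr (by linarith) with ⟨i, hi, k1, k2, k3⟩ | ⟨j, q', hj, hja, hP2, hq'⟩
  · have hi1 : 1 ≤ i := by
      by_contra hcon
      have : i = 0 := by omega
      subst this
      linarith
    have e2 : 1 * C ≤ i * C := mul_le_mul_of_nonneg_right hi1 (by linarith)
    have hr2 : 2 * c - C + 1 ≤ r := by
      by_contra hcon2
      exact h.piDown hv 1 (by linarith) (by linarith) (by omega)
    have hreq : r = 2 * c - C + 1 := by linarith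
    subst hreq
    subst hpe
    exact h.apXZ 1 le_rfl ⟨0, b - q, 0, le_rfl, by linarith, le_rfl, by
      linear_combination hv + hMv⟩
  · exact hIH _ _ _ hP2 (by linarith) (by linarith) hq'

theorem H.claim2 (h : H x y z g M a b c A B C)
    (hII : ∀ p q r : ℤ, Pi x y z A (M + g) p q r → b + 1 ≤ q → c + 1 ≤ r → False) :
    ∀ n : ℕ, ∀ p q r : ℤ, Pi x y z A (M + g) p q r → a + 1 ≤ p → p ≤ n →
      (c + 1 ≤ r → False) ∧ (b + 1 ≤ q → False) := by
  intro n
  induction n with
  | zero =>
    intro p q r hP hp hpn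
    have := h.ha
    push_cast at hpn
    linarith
  | succ n ih =>
    intro p q r hP hp hpn
    constructor
    · intro hr
      refine h.step hII hP hr hp ?_
      intro p' q' r' hP' h1 h2 h3
      exact (ih p' q' r' hP' h1 (by push_cast at hpn; linarith)).2 h3
    · intro hq
      refine h.swap.step (fun p q r hP h1 h2 => hII p r q hP.swap h2 h1) hP.swap hq hp ?_
      intro p' q' r' hP' h1 h2 h3
      exact (ih p' r' q' hP'.swap h1 (by push_cast at hpn; linarith)).1 h3

theorem H.claim2Z (h : H x y z g M a b c A B C)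
    (hII : ∀ p q r : ℤ, Pi x y z A (M + g) p q r → b + 1 ≤ q → c + 1 ≤ r → False)
    {p q r : ℤ} (hP : Pi x y z A (M + g) p q r) (hp : a + 1 ≤ p) (hr : c + 1 ≤ r) : False :=
  (h.claim2 hII p.toNat p q r hP hp (Int.self_le_toNat p)).1 hr

theorem H.claim2Y (h : H x y z g M a b c A B C)
    (hII : ∀ p q r : ℤ, Pi x y z A (M + g) p q r → b + 1 ≤ q → c + 1 ≤ r → False)
    {p q r : ℤ} (hP : Pi x y z A (M + g) p q r) (hp : a + 1 ≤ p) (hq : b + 1 ≤ q) : False :=
  (h.claim2 hII p.toNat p q r hP hp (Int.self_le_toNat p)).2 hq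

theorem H.lt_a_Z (h : H x y z g M a b c A B C)
    (hII : ∀ p q r : ℤ, Pi x y z A (M + g) p q r → b + 1 ≤ q → c + 1 ≤ r → False)
    {p q r : ℤ} (hP : Pi x y z A (M + g) p q r) (hr : c + 1 ≤ r) : p < a := by
  by_contra hcon
  have h1 := h.claim1 hII hP hr
  exact h.claim2Z hII hP (by omega) hr

theorem H.lt_a_Y (h : H x y z g M a b c A B C)
    (hII : ∀ p q r : ℤ, Pi x y z A (M + g) p q r → b + 1 ≤ q → c + 1 ≤ r → False)
    {p q r : ℤ} (hP : Pi x y z A (M + g) p q r) (hq : b + 1 ≤ q) : p < a :=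
  h.swap.lt_a_Z (fun p q r hP h1 h2 => hII p r q hP.swap h2 h1) hP.swap hq

/-- first half of Claim 3 -/
theorem H.claim3a (h : H x y z g M a b c A B C)
    (hII : ∀ p q r : ℤ, Pi x y z A (M + g) p q r → b + 1 ≤ q → c + 1 ≤ r → False)
    {p q r : ℤ} (hP : Pi x y z A (M + g) p q r) (hq : B ≤ q) (hr : c + 1 ≤ r) :
    p + A = 2 * a + 1 ∧ 2 * c + 1 ≤ r := by
  have hB := h.hB
  have hC := h.hC
  have haA := h.haA
  have ha := h.ha
  have hb := h.hb
  have hc := h.hc
  have hMv := h.hM
  have hrel := h.hrel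
  have hpa := h.lt_a_Z hII hP hr
  have hP' := hP
  obtain ⟨hp0, hpA, hq0, hr0, hv⟩ := hP'
  have hqb : q ≤ b := by
    by_contra hcon
    exact hII p q r hP (by omega) hr
  have hr2 : 2 * c + 1 ≤ r := by
    by_contra hcon2
    exact h.piDown hv 0 (by linarith) (by linarith) (by omega)
  refine ⟨?_, hr2⟩
  have hr3 : p + A ≤ 2 * a → 2 * c + C + 1 ≤ r := by
    intro h1
    by_contra hcon2
    exact h.piDown hv (-1) (by linarith) (by linarith) (by linarith)
  have hval : (b + 1) * y - x + g =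
      (p - a - 1 + A) * x + (q + 1 - B) * y + (r - c - C) * z := by
    linear_combination (-1) * hv - hMv - hrel
  by_cases hD : S x y z (M - ((b + 1) * y - x + g))
  · have := h.inD' (by linarith) (by linarith) (by linarith) hval hD
    rcases this with ⟨k1, k2, k3⟩ | ⟨k2, k3⟩
    · by_contra hne
      have := hr3 (by omega)
      linarith
    · linarith
  · exfalso
    have hS := h.shift (u := (b + 1) * y) (s := x) S_x h.apY h.Yx
      ⟨p - a - 1 + A, q + 1 - B, r - c - C, by linarith, by linarith, by linarith, hval⟩ hD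
    obtain ⟨μ, ν, hμ, hν, hνC, he⟩ := h.vX hS
    have hP2 : Pi x y z A (M + g) (p - a - 1 + A) (q + 1 - B + μ) (r - c - C + ν) :=
      ⟨by linarith, by linarith, by linarith, by linarith, by
        linear_combination hv - he + hMv + hrel⟩
    have h1 := h.lt_a_Y hII hP2 (by linarith)
    have h2 := hr3 (by linarith)
    exact hII _ _ _ hP2 (by linarith) (by linarith)

/-- Case II is impossible. -/
theorem H.caseII (h : H x y z g M a b c A B C)
    (hII : ∀ p q r : ℤ, Pi x y z A (M + g) p q r → b + 1 ≤ q → c + 1 ≤ r → False) : False := by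
  have hB := h.hB
  have hC := h.hC
  have haA := h.haA
  have ha := h.ha
  have hb := h.hb
  have hc := h.hc
  have hMv := h.hM
  have hrel := h.hrel
  -- XZ is served
  obtain ⟨q1, q2, q3, hq1, hq2, hq3, he⟩ := h.can ((a + 1) * x + (c - C + 1) * z)
    ⟨a + 1, 0, c - C + 1, by linarith, le_rfl, by linarith, by ring⟩ h.apXZ h.mXZ
  obtain ⟨t, p, ht, hp0, hpA, hpt, hval⟩ := normalize (A := A) (by linarith) hrel
    (a + 1 + q1) q2 (c - C + 1 + q3) (by linarith)
  have htB : 0 ≤ t * B := mul_nonneg ht (by linarith)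
  have htC : 0 ≤ t * C := mul_nonneg ht (by linarith)
  have hP : Pi x y z A (M + g) p (q2 + t * B) (c - C + 1 + q3 + t * C) :=
    ⟨hp0, hpA, by linarith, by linarith, by linarith⟩
  rcases eq_or_lt_of_le ht with ht0 | ht0
  · -- t = 0 : p ≥ a + 1
    subst ht0
    have hpa : a + 1 ≤ p := by linarith
    have h1 : q2 + 0 * B ≤ b := by
      by_contra hcon
      exact h.claim2Y hII hP hpa (by omega)
    have h2 : c - C + 1 + q3 + 0 * C ≤ c := by
      by_contra hcon
      exact h.claim2Z hII hP hpa (by omega)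
    by_cases h3 : p ≤ 2 * a
    · exact h.piDown hP.2.2.2.2 0 (by linarith) (by linarith) (by linarith)
    · exact h.piDown hP.2.2.2.2 1 (by linarith) (by linarith) (by linarith)
  · have e1 : 1 * B ≤ t * B := mul_le_mul_of_nonneg_right (by linarith) (by linarith)
    have e2 : 1 * C ≤ t * C := mul_le_mul_of_nonneg_right (by linarith) (by linarith)
    obtain ⟨q, hqdef⟩ : ∃ q, q = q2 + t * B := ⟨_, rfl⟩
    obtain ⟨r, hrdef⟩ : ∃ r, r = c - C + 1 + q3 + t * C := ⟨_, rfl⟩
    rw [← hqdef, ← hrdef] at hP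
    have hqB : B ≤ q := by linarith
    have hrc : c + 1 ≤ r := by linarith
    clear hqdef hrdef hval e1 e2 htB htC he
    have hpa := h.lt_a_Z hII hP hrc
    obtain ⟨h1, h2⟩ := h.claim3a hII hP hqB hrc
    have hP' := hP
    obtain ⟨_, _, hq0, hr0, hv⟩ := hP'
    have hqb : q ≤ b := by
      by_contra hcon
      exact hII p q r hP (by omega) hrc
    have hval : (b + 1) * y - z + g =
        (a + 1) * x + (q + 1 - B) * y + (r - c - 1 - C) * z := by
      have hpe : p = 2 * a + 1 - A := by linarith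
      subst hpe
      linear_combination (-1) * hv - hMv - hrel
    by_cases hD : S x y z (M - ((b + 1) * y - z + g))
    · obtain h3 := h.inD' (by linarith) (by linarith) (by linarith) hval hD
      rcases h3 with ⟨k1, k2, k3⟩ | ⟨k2, k3⟩
      · linarith
      · have hre : r = 2 * c + 1 := by linarith
        have hpe : p = 2 * a + 1 - A := by linarith
        subst hre
        subst hpe
        exact h.apXZ 1 le_rfl ⟨0, b + B - q, 0, le_rfl, by linarith, le_rfl, by
          linear_combination hv + hMv + hrel⟩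
    · have hS := h.shift (u := (b + 1) * y) (s := z) S_z h.apY h.Yz
        ⟨a + 1, q + 1 - B, r - c - 1 - C, by linarith, by linarith, by linarith, hval⟩ hD
      obtain ⟨j, μ, hj, hja, hμ, he2⟩ := h.vZ hS
      by_cases hjA : a + 1 + j < A
      · have hP2 : Pi x y z A (M + g) (a + 1 + j) (q + 1 - B + μ) (r - c - 1 - C) :=
          ⟨by linarith, hjA, by linarith, by linarith, by
            linear_combination (-1) * hval - he2⟩
        exact h.claim2Y hII hP2 (by linarith) (by linarith)
      · have hP2 : Pi x y z A (M + g) (a + 1 + j - A) (q + 1 + μ) (r - c - 1) :=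
          ⟨by linarith, by linarith, by linarith, by linarith, by
            linear_combination (-1) * hval - he2 - hrel⟩
        have := (h.swap.claim3a (fun p q r hP h1 h2 => hII p r q hP.swap h2 h1) hP2.swap
          (by linarith) (by linarith)).1
        omega

theorem H.false (h : H x y z g M a b c A B C) : False :=
  h.caseII (fun _ _ _ hP hq hr => h.caseI hP hq hr)

end Pool.Agent.Helper24.CanRed
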