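import Mathlib

set_option autoImplicit false

namespace Pool.Agent.Helper24.CanRed

/-- The integer `n` belongs to the semigroup `Γ ⊆ ℕ`. -/
def Mem (Γ : AddSubmonoid ℕ) (n : ℤ) : Prop := ∃ m ∈ Γ, (m : ℤ) = n

/-- The minimal generators of `Γ`: the nonzero elements which are not the sum of two nonzero
elements of `Γ`. Their number is the embedding dimension. -/
def minimalGenerators (Γ : AddSubmonoid ℕ) : Set ℕ :=
  {s | s ∈ Γ ∧ s ≠ 0 ∧ ∀ a ∈ Γ, ∀ b ∈ Γ, a + b = s → a = 0 ∨ b = 0}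

/-- The pseudo-Frobenius numbers of `Γ`: the integers `q ∉ Γ` with `q + s ∈ Γ` for all nonzero
`s ∈ Γ`. Their number is the type. -/
def PF (Γ : AddSubmonoid ℕ) : Set ℤ :=
  {q | ¬ Mem Γ q ∧ ∀ s ∈ Γ, s ≠ 0 → Mem Γ (q + s)}

/-- `Γ` has a canonical reduction: `g + F - q ∈ Γ` for every pseudo-Frobenius number `q`, where
`g` is the smallest positive element of `Γ` and `F` is the Frobenius number, the largest integer
not in `Γ`. -/
def HasCanonicalReduction (Γ : AddSubmonoid ℕ) : Prop :=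
  ∃ (g : ℕ) (F : ℤ), IsLeast {s : ℕ | s ∈ Γ ∧ s ≠ 0} g ∧ IsGreatest {n : ℤ | ¬ Mem Γ n} F ∧
    ∀ q ∈ PF Γ, Mem Γ (g + F - q)

end Pool.Agent.Helper24.CanRed
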