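import Pool.Agent.Helper24.CanRed.LemT

set_option autoImplicit false

namespace Pool.Agent.Helper24.CanRed

/-- `n` is a combination of `x, y, z` with nonnegative integer coefficients. -/
def S (x y z n : ℤ) : Prop := ∃ p q r : ℤ, 0 ≤ p ∧ 0 ≤ q ∧ 0 ≤ r ∧ n = p * x + q * y + r * z

theorem S_g_false {x y z g : ℤ} (hg : 0 < g) (hgx : g < x) (hgy : g < y) (hgz : g < z) :
    ¬ S x y z g := by
  rintro ⟨p, q, r, hp, hq, hr, h⟩
  have hx : 0 < x := by linarith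
  have hy : 0 < y := by linarith
  have hz : 0 < z := by linarith
  have hpx : 0 ≤ p * x := mul_nonneg hp hx.le
  have hqy : 0 ≤ q * y := mul_nonneg hq hy.le
  have hrz : 0 ≤ r * z := mul_nonneg hr hz.le
  rcases eq_or_lt_of_le hp with hp0 | hp0
  · rcases eq_or_lt_of_le hq with hq0 | hq0
    · rcases eq_or_lt_of_le hr with hr0 | hr0
      · rw [← hp0, ← hq0, ← hr0] at h; linarith
      · have : 1 * z ≤ r * z := mul_le_mul_of_nonneg_right (by linarith) hz.le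
        linarith
    · have : 1 * y ≤ q * y := mul_le_mul_of_nonneg_right (by linarith) hy.le
      linarith
  · have : 1 * x ≤ p * x := mul_le_mul_of_nonneg_right (by linarith) hx.le
    linarith

theorem coord_nonneg (D e g M c : ℤ) (hD : 0 < D) (heM : e * M = D * g) (hgc : g < c)
    (hc : 0 < c) (hM : 0 ≤ M) (f1 f2 f3 k T1 T2 T3 p1 p2 p3 v : ℤ)
    (hp1 : 0 ≤ p1) (hp2 : 0 ≤ p2) (hp3 : 0 ≤ p3)
    (h1 : p1 * c ≤ M) (h2 : p2 * c ≤ M) (h3 : p3 * c ≤ M)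
    (hcost : max 0 (k * f1 - D * T1) + max 0 (k * f2 - D * T2) + max 0 (k * f3 - D * T3) ≤ e)
    (hv : D * v = (D * T1 - k * f1) * p1 + (D * T2 - k * f2) * p2 + (D * T3 - k * f3) * p3) :
    0 ≤ v := by
  have aux : ∀ t p : ℤ, 0 ≤ p → p * c ≤ M → -(max 0 t * M) ≤ (-t) * p * c := by
    intro t p hp hpc
    have h4 : t ≤ max 0 t := le_max_right _ _
    have h5 : 0 ≤ max 0 t := le_max_left _ _
    have h6 : t * (p * c) ≤ max 0 t * (p * c) :=
      mul_le_mul_of_nonneg_right h4 (mul_nonneg hp hc.le)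
    have h7 : max 0 t * (p * c) ≤ max 0 t * M := mul_le_mul_of_nonneg_left hpc h5
    nlinarith
  have a1 := aux (k * f1 - D * T1) p1 hp1 h1
  have a2 := aux (k * f2 - D * T2) p2 hp2 h2
  have a3 := aux (k * f3 - D * T3) p3 hp3 h3
  have h8 : D * v * c = (-(k * f1 - D * T1)) * p1 * c + (-(k * f2 - D * T2)) * p2 * c +
      (-(k * f3 - D * T3)) * p3 * c := by rw [hv]; ring
  have h9 : (max 0 (k * f1 - D * T1) + max 0 (k * f2 - D * T2) + max 0 (k * f3 - D * T3)) * M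
      ≤ e * M := mul_le_mul_of_nonneg_right hcost hM
  have h10 : D * (-g) ≤ D * (v * c) := by nlinarith
  have h11 : -g ≤ v * c := le_of_mul_le_mul_left h10 hD
  by_contra hcon
  push Not at hcon
  have : v * c ≤ (-1) * c := mul_le_mul_of_nonneg_right (by linarith) hc.le
  linarith

theorem exists_residue (D G : ℤ) (hD : 0 < D) : ∃ F t : ℤ, F = G - D * t ∧ 1 ≤ F ∧ F ≤ D := by
  refine ⟨D - (-G) % D, -(1 + (-G) / D), ?_, ?_, ?_⟩
  · have := Int.emod_add_mul_ediv (-G) D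
    linarith
  · have := Int.emod_lt_of_pos (-G) hD
    linarith
  · have := Int.emod_nonneg (-G) hD.ne'
    linarith

theorem kl1_aux (x y z g M : ℤ) (hg : 0 < g) (hgx : g < x) (hgy : g < y) (hgz : g < z)
    (hgM : g < M) (hM : ∀ k : ℤ, 1 ≤ k → ¬ S x y z (M - k * g))
    (γ1 γ2 γ3 : ℤ) (hγ : γ1 * x + γ2 * y + γ3 * z = g)
    (p1 q1 r1 p2 q2 r2 p3 q3 r3 : ℤ)
    (hp1 : 0 ≤ p1) (hq1 : 0 ≤ q1) (hr1 : 0 ≤ r1)
    (hp2 : 0 ≤ p2) (hq2 : 0 ≤ q2) (hr2 : 0 ≤ r2)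
    (hp3 : 0 ≤ p3) (hq3 : 0 ≤ q3) (hr3 : 0 ≤ r3)
    (h1 : p1 * x + q1 * y + r1 * z = M) (h2 : p2 * x + q2 * y + r2 * z = M)
    (h3 : p3 * x + q3 * y + r3 * z = M) :
    ¬ 0 < p1 * (q2 * r3 - q3 * r2) - q1 * (p2 * r3 - p3 * r2) + r1 * (p2 * q3 - p3 * q2) := by
  intro hdet
  have hx : 0 < x := by linarith
  have hy : 0 < y := by linarith
  have hz : 0 < z := by linarith
  have hM0 : 0 < M := by linarith
  obtain ⟨D, hD⟩ : ∃ D, D = p1 * (q2 * r3 - q3 * r2) - q1 * (p2 * r3 - p3 * r2) +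
    r1 * (p2 * q3 - p3 * q2) := ⟨_, rfl⟩
  rw [← hD] at hdet
  obtain ⟨G1, hG1⟩ : ∃ G, G = γ1 * (q2 * r3 - q3 * r2) - γ2 * (p2 * r3 - p3 * r2) +
    γ3 * (p2 * q3 - p3 * q2) := ⟨_, rfl⟩
  obtain ⟨G2, hG2⟩ : ∃ G, G = p1 * (γ2 * r3 - q3 * γ3) - q1 * (γ1 * r3 - p3 * γ3) +
    r1 * (γ1 * q3 - p3 * γ2) := ⟨_, rfl⟩
  obtain ⟨G3, hG3⟩ : ∃ G, G = p1 * (q2 * γ3 - γ2 * r2) - q1 * (p2 * γ3 - γ1 * r2) +
    r1 * (p2 * γ2 - γ1 * q2) := ⟨_, rfl⟩
  have c1 : D * γ1 = G1 * p1 + G2 * p2 + G3 * p3 := by rw [hD, hG1, hG2, hG3]; ring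
  have c2 : D * γ2 = G1 * q1 + G2 * q2 + G3 * q3 := by rw [hD, hG1, hG2, hG3]; ring
  have c3 : D * γ3 = G1 * r1 + G2 * r2 + G3 * r3 := by rw [hD, hG1, hG2, hG3]; ring
  clear hG1 hG2 hG3 hD
  obtain ⟨E, hE⟩ : ∃ E, E = G1 + G2 + G3 := ⟨_, rfl⟩
  have hEM : E * M = D * g := by
    have : D * g = (D * γ1) * x + (D * γ2) * y + (D * γ3) * z := by rw [← hγ]; ring
    rw [this, c1, c2, c3, hE]
    linear_combination (-G1) * h1 + (-G2) * h2 + (-G3) * h3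
  have hEpos : 0 < E := by
    have h4 : 0 < E * M := by rw [hEM]; positivity
    by_contra hc
    push Not at hc
    have : E * M ≤ 0 := mul_nonpos_of_nonpos_of_nonneg hc hM0.le
    linarith
  have hED : E < D := by
    have : E * M < D * M := by
      rw [hEM]; exact mul_lt_mul_of_pos_left hgM hdet
    exact lt_of_mul_lt_mul_right this hM0.le
  obtain ⟨F1, t1, hF1, hF1a, hF1b⟩ := exists_residue D G1 hdet
  obtain ⟨F2, t2, hF2, hF2a, hF2b⟩ := exists_residue D G2 hdet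
  obtain ⟨F3, t3, hF3, hF3a, hF3b⟩ := exists_residue D G3 hdet
  obtain ⟨n, hn⟩ : ∃ n, n = -(t1 + t2 + t3) := ⟨_, rfl⟩
  have hsum : F1 + F2 + F3 = E + n * D := by rw [hF1, hF2, hF3, hE, hn]; ring
  have hn0 : 0 ≤ n := by
    by_contra hc
    push Not at hc
    have : n * D ≤ (-1) * D := mul_le_mul_of_nonneg_right (by linarith) hdet.le
    linarith
  have hn2 : n ≤ 2 := by
    by_contra hc
    push Not at hc
    have : 3 * D ≤ n * D := mul_le_mul_of_nonneg_right (by linarith) hdet.le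
    linarith
  -- the integer vector v
  obtain ⟨v1, hv1⟩ : ∃ v, v = γ1 - (t1 * p1 + t2 * p2 + t3 * p3) := ⟨_, rfl⟩
  obtain ⟨v2, hv2⟩ : ∃ v, v = γ2 - (t1 * q1 + t2 * q2 + t3 * q3) := ⟨_, rfl⟩
  obtain ⟨v3, hv3⟩ : ∃ v, v = γ3 - (t1 * r1 + t2 * r2 + t3 * r3) := ⟨_, rfl⟩
  have d1 : D * v1 = F1 * p1 + F2 * p2 + F3 * p3 := by
    rw [hv1, hF1, hF2, hF3]; linear_combination c1
  have d2 : D * v2 = F1 * q1 + F2 * q2 + F3 * q3 := by
    rw [hv2, hF1, hF2, hF3]; linear_combination c2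
  have d3 : D * v3 = F1 * r1 + F2 * r2 + F3 * r3 := by
    rw [hv3, hF1, hF2, hF3]; linear_combination c3
  have hval : v1 * x + v2 * y + v3 * z = g + n * M := by
    rw [hv1, hv2, hv3, hn]
    linear_combination hγ - t1 * h1 - t2 * h2 - t3 * h3
  have hcases : n = 0 ∨ n = 1 ∨ n = 2 := by omega
  rcases hcases with h | h | h
  · -- n = 0
    apply S_g_false hg hgx hgy hgz
    refine ⟨v1, v2, v3, ?_, ?_, ?_, ?_⟩
    · have : 0 ≤ D * v1 := by rw [d1]; positivity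
      exact nonneg_of_mul_nonneg_right this hdet
    · have : 0 ≤ D * v2 := by rw [d2]; positivity
      exact nonneg_of_mul_nonneg_right this hdet
    · have : 0 ≤ D * v3 := by rw [d3]; positivity
      exact nonneg_of_mul_nonneg_right this hdet
    · rw [hval, h]; ring
  · -- n = 1
    subst h
    obtain ⟨k, T1, T2, T3, hk, hT, hcost⟩ :=
      lemT D E F1 F2 F3 hF1a hF2a hF3a hF1b hF2b hF3b hEpos (by linarith)
    have bd : ∀ p q r : ℤ, 0 ≤ p → 0 ≤ q → 0 ≤ r → p * x + q * y + r * z = M →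
        p * x ≤ M ∧ q * y ≤ M ∧ r * z ≤ M := by
      intro p q r hp hq hr h
      have hpx : 0 ≤ p * x := mul_nonneg hp hx.le
      have hqy : 0 ≤ q * y := mul_nonneg hq hy.le
      have hrz : 0 ≤ r * z := mul_nonneg hr hz.le
      exact ⟨by linarith, by linarith, by linarith⟩
    obtain ⟨b11, b12, b13⟩ := bd p1 q1 r1 hp1 hq1 hr1 h1
    obtain ⟨b21, b22, b23⟩ := bd p2 q2 r2 hp2 hq2 hr2 h2
    obtain ⟨b31, b32, b33⟩ := bd p3 q3 r3 hp3 hq3 hr3 h3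
    apply hM k hk
    refine ⟨T1 * p1 + T2 * p2 + T3 * p3 - k * v1, T1 * q1 + T2 * q2 + T3 * q3 - k * v2,
      T1 * r1 + T2 * r2 + T3 * r3 - k * v3, ?_, ?_, ?_, ?_⟩
    · exact coord_nonneg D E g M x hdet hEM hgx hx hM0.le F1 F2 F3 k T1 T2 T3 p1 p2 p3 _
        hp1 hp2 hp3 b11 b21 b31 hcost (by linear_combination (-k) * d1)
    · exact coord_nonneg D E g M y hdet hEM hgy hy hM0.le F1 F2 F3 k T1 T2 T3 q1 q2 q3 _
        hq1 hq2 hq3 b12 b22 b32 hcost (by linear_combination (-k) * d2)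
    · exact coord_nonneg D E g M z hdet hEM hgz hz hM0.le F1 F2 F3 k T1 T2 T3 r1 r2 r3 _
        hr1 hr2 hr3 b13 b23 b33 hcost (by linear_combination (-k) * d3)
    · linear_combination (-T1) * h1 - T2 * h2 - T3 * h3 + k * hval - M * hT
  · -- n = 2
    subst h
    apply hM 1 le_rfl
    refine ⟨p1 + p2 + p3 - v1, q1 + q2 + q3 - v2, r1 + r2 + r3 - v3, ?_, ?_, ?_, ?_⟩
    · have : 0 ≤ D * (p1 + p2 + p3 - v1) := by
        have : D * (p1 + p2 + p3 - v1) = (D - F1) * p1 + (D - F2) * p2 + (D - F3) * p3 := by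
          linear_combination (-1) * d1
        rw [this]
        have e1 := mul_nonneg (by linarith : (0:ℤ) ≤ D - F1) hp1
        have e2 := mul_nonneg (by linarith : (0:ℤ) ≤ D - F2) hp2
        have e3 := mul_nonneg (by linarith : (0:ℤ) ≤ D - F3) hp3
        linarith
      exact nonneg_of_mul_nonneg_right this hdet
    · have : 0 ≤ D * (q1 + q2 + q3 - v2) := by
        have : D * (q1 + q2 + q3 - v2) = (D - F1) * q1 + (D - F2) * q2 + (D - F3) * q3 := by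
          linear_combination (-1) * d2
        rw [this]
        have e1 := mul_nonneg (by linarith : (0:ℤ) ≤ D - F1) hq1
        have e2 := mul_nonneg (by linarith : (0:ℤ) ≤ D - F2) hq2
        have e3 := mul_nonneg (by linarith : (0:ℤ) ≤ D - F3) hq3
        linarith
      exact nonneg_of_mul_nonneg_right this hdet
    · have : 0 ≤ D * (r1 + r2 + r3 - v3) := by
        have : D * (r1 + r2 + r3 - v3) = (D - F1) * r1 + (D - F2) * r2 + (D - F3) * r3 := by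
          linear_combination (-1) * d3
        rw [this]
        have e1 := mul_nonneg (by linarith : (0:ℤ) ≤ D - F1) hr1
        have e2 := mul_nonneg (by linarith : (0:ℤ) ≤ D - F2) hr2
        have e3 := mul_nonneg (by linarith : (0:ℤ) ≤ D - F3) hr3
        linarith
      exact nonneg_of_mul_nonneg_right this hdet
    · linear_combination (-1) * h1 - h2 - h3 + hval

/-- The factorizations of an Apéry element over the three larger generators are collinear. -/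
theorem kl1 (x y z g M : ℤ) (hg : 0 < g) (hgx : g < x) (hgy : g < y) (hgz : g < z)
    (hgM : g < M) (hM : ∀ k : ℤ, 1 ≤ k → ¬ S x y z (M - k * g))
    (γ1 γ2 γ3 : ℤ) (hγ : γ1 * x + γ2 * y + γ3 * z = g)
    (p1 q1 r1 p2 q2 r2 p3 q3 r3 : ℤ)
    (hp1 : 0 ≤ p1) (hq1 : 0 ≤ q1) (hr1 : 0 ≤ r1)
    (hp2 : 0 ≤ p2) (hq2 : 0 ≤ q2) (hr2 : 0 ≤ r2)
    (hp3 : 0 ≤ p3) (hq3 : 0 ≤ q3) (hr3 : 0 ≤ r3)
    (h1 : p1 * x + q1 * y + r1 * z = M) (h2 : p2 * x + q2 * y + r2 * z = M)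
    (h3 : p3 * x + q3 * y + r3 * z = M) :
    p1 * (q2 * r3 - q3 * r2) - q1 * (p2 * r3 - p3 * r2) + r1 * (p2 * q3 - p3 * q2) = 0 := by
  have A := kl1_aux x y z g M hg hgx hgy hgz hgM hM γ1 γ2 γ3 hγ p1 q1 r1 p2 q2 r2 p3 q3 r3
    hp1 hq1 hr1 hp2 hq2 hr2 hp3 hq3 hr3 h1 h2 h3
  have B := kl1_aux x y z g M hg hgx hgy hgz hgM hM γ1 γ2 γ3 hγ p2 q2 r2 p1 q1 r1 p3 q3 r3
    hp2 hq2 hr2 hp1 hq1 hr1 hp3 hq3 hr3 h2 h1 h3
  push Not at A B
  have C : p2 * (q1 * r3 - q3 * r1) - q2 * (p1 * r3 - p3 * r1) + r2 * (p1 * q3 - p3 * q1) =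
    -(p1 * (q2 * r3 - q3 * r2) - q1 * (p2 * r3 - p3 * r2) + r1 * (p2 * q3 - p3 * q2)) := by ring
  linarith

end Pool.Agent.Helper24.CanRed
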