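import Pool.Agent.Helper24.CanRed.KL1

set_option autoImplicit false

namespace Pool.Agent.Helper24.CanRed

theorem S_swap {x y z n : ℤ} (h : S x y z n) : S x z y n := by
  obtain ⟨p, q, r, hp, hq, hr, hn⟩ := h
  exact ⟨p, r, q, hp, hr, hq, by linarith⟩

theorem S_add {x y z m n : ℤ} (h : S x y z m) (h' : S x y z n) : S x y z (m + n) := by
  obtain ⟨p, q, r, hp, hq, hr, hn⟩ := h
  obtain ⟨p', q', r', hp', hq', hr', hn'⟩ := h'
  exact ⟨p + p', q + q', r + r', by linarith, by linarith, by linarith, by rw [hn, hn']; ring⟩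

theorem S_x {x y z : ℤ} : S x y z x := ⟨1, 0, 0, by norm_num, le_rfl, le_rfl, by ring⟩
theorem S_y {x y z : ℤ} : S x y z y := ⟨0, 1, 0, le_rfl, by norm_num, le_rfl, by ring⟩
theorem S_z {x y z : ℤ} : S x y z z := ⟨0, 0, 1, le_rfl, le_rfl, by norm_num, by ring⟩

/-- The data of the second part of the proof: the factorizations of `M` are
`(a + i A, b - i B, c - i C)`, and the four candidates are minimal in `N` and distinct. -/
structure H (x y z g M a b c A B C : ℤ) : Prop where
  hx : 0 < x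
  hy : 0 < y
  hz : 0 < z
  hrel : A * x = B * y + C * z
  hM : M = a * x + b * y + c * z
  ha : 0 ≤ a
  haA : a + 2 ≤ A
  hB : 1 ≤ B
  hC : 1 ≤ C
  hb : B ≤ b
  hc : C ≤ c
  hPhi : ∀ p q r : ℤ, 0 ≤ p → 0 ≤ q → 0 ≤ r → p * x + q * y + r * z = M →
    ∃ i, 0 ≤ i ∧ p = a + i * A ∧ q = b - i * B ∧ r = c - i * C
  hg : ¬ S x y z g
  hMg : ¬ S x y z (M - g)
  mY : ¬ S x y z (M - (b + 1) * y)
  mZ : ¬ S x y z (M - (c + 1) * z)
  mXY : ¬ S x y z (M - ((a + 1) * x + (b - B + 1) * y))
  mXZ : ¬ S x y z (M - ((a + 1) * x + (c - C + 1) * z))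
  apY : ∀ k, 1 ≤ k → ¬ S x y z ((b + 1) * y - k * g)
  apZ : ∀ k, 1 ≤ k → ¬ S x y z ((c + 1) * z - k * g)
  apXY : ∀ k, 1 ≤ k → ¬ S x y z ((a + 1) * x + (b - B + 1) * y - k * g)
  apXZ : ∀ k, 1 ≤ k → ¬ S x y z ((a + 1) * x + (c - C + 1) * z - k * g)
  can : ∀ u, S x y z u → (∀ k, 1 ≤ k → ¬ S x y z (u - k * g)) → ¬ S x y z (M - u) →
    S x y z (M + g - u)
  YZ : ¬ S x y z ((b + 1) * y - (c + 1) * z)
  ZY : ¬ S x y z ((c + 1) * z - (b + 1) * y)
  Y_XY : ¬ S x y z ((b + 1) * y - ((a + 1) * x + (b - B + 1) * y))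
  Y_XZ : ¬ S x y z ((b + 1) * y - ((a + 1) * x + (c - C + 1) * z))
  Z_XY : ¬ S x y z ((c + 1) * z - ((a + 1) * x + (b - B + 1) * y))
  Z_XZ : ¬ S x y z ((c + 1) * z - ((a + 1) * x + (c - C + 1) * z))
  XY_Y : ¬ S x y z ((a + 1) * x + (b - B + 1) * y - (b + 1) * y)
  XY_Z : ¬ S x y z ((a + 1) * x + (b - B + 1) * y - (c + 1) * z)
  XZ_Y : ¬ S x y z ((a + 1) * x + (c - C + 1) * z - (b + 1) * y)
  XZ_Z : ¬ S x y z ((a + 1) * x + (c - C + 1) * z - (c + 1) * z)
  XY_XZ : ¬ S x y z ((a + 1) * x + (b - B + 1) * y - ((a + 1) * x + (c - C + 1) * z))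
  XZ_XY : ¬ S x y z ((a + 1) * x + (c - C + 1) * z - ((a + 1) * x + (b - B + 1) * y))

variable {x y z g M a b c A B C : ℤ}

theorem H.swap (h : H x y z g M a b c A B C) : H x z y g M a c b A C B where
  hx := h.hx
  hy := h.hz
  hz := h.hy
  hrel := by linarith [h.hrel]
  hM := by linarith [h.hM]
  ha := h.ha
  haA := h.haA
  hB := h.hC
  hC := h.hB
  hb := h.hc
  hc := h.hb
  hPhi := by
    intro p q r hp hq hr he
    obtain ⟨i, hi, h1, h2, h3⟩ := h.hPhi p r q hp hr hq (by linarith)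
    exact ⟨i, hi, h1, h3, h2⟩
  hg := fun hs => h.hg (S_swap hs)
  hMg := fun hs => h.hMg (S_swap hs)
  mY := fun hs => h.mZ (S_swap hs)
  mZ := fun hs => h.mY (S_swap hs)
  mXY := fun hs => h.mXZ (S_swap hs)
  mXZ := fun hs => h.mXY (S_swap hs)
  apY := fun k hk hs => h.apZ k hk (S_swap hs)
  apZ := fun k hk hs => h.apY k hk (S_swap hs)
  apXY := fun k hk hs => h.apXZ k hk (S_swap hs)
  apXZ := fun k hk hs => h.apXY k hk (S_swap hs)
  can := fun u hu hk hm => S_swap (h.can u (S_swap hu) (fun k hk' hs => hk k hk' (S_swap hs))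
    (fun hs => hm (S_swap hs)))
  YZ := fun hs => h.ZY (S_swap hs)
  ZY := fun hs => h.YZ (S_swap hs)
  Y_XY := fun hs => h.Z_XZ (S_swap hs)
  Y_XZ := fun hs => h.Z_XY (S_swap hs)
  Z_XY := fun hs => h.Y_XZ (S_swap hs)
  Z_XZ := fun hs => h.Y_XY (S_swap hs)
  XY_Y := fun hs => h.XZ_Z (S_swap hs)
  XY_Z := fun hs => h.XZ_Y (S_swap hs)
  XZ_Y := fun hs => h.XY_Z (S_swap hs)
  XZ_Z := fun hs => h.XY_Y (S_swap hs)
  XY_XZ := fun hs => h.XZ_XY (S_swap hs)
  XZ_XY := fun hs => h.XY_XZ (S_swap hs)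

/-- three nonnegative terms summing to zero -/
theorem zero_of_sum {x y z : ℤ} (hx : 0 < x) (hy : 0 < y) (hz : 0 < z) {p q r : ℤ}
    (hp : 0 ≤ p) (hq : 0 ≤ q) (hr : 0 ≤ r) (h : p * x + q * y + r * z = 0) :
    p = 0 ∧ q = 0 ∧ r = 0 := by
  have h1 : 0 ≤ p * x := mul_nonneg hp hx.le
  have h2 : 0 ≤ q * y := mul_nonneg hq hy.le
  have h3 : 0 ≤ r * z := mul_nonneg hr hz.le
  have h4 : p * x = 0 := by linarith
  have h5 : q * y = 0 := by linarith
  have h6 : r * z = 0 := by linarith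
  refine ⟨?_, ?_, ?_⟩
  · rcases mul_eq_zero.mp h4 with h | h
    · exact h
    · exact absurd h hx.ne'
  · rcases mul_eq_zero.mp h5 with h | h
    · exact h
    · exact absurd h hy.ne'
  · rcases mul_eq_zero.mp h6 with h | h
    · exact h
    · exact absurd h hz.ne'

/-- normalisation of a factorization -/
theorem normalize {x y z A B C : ℤ} (hA : 0 < A)
    (hrel : A * x = B * y + C * z) (p q r : ℤ) (hp : 0 ≤ p) :
    ∃ t p' : ℤ, 0 ≤ t ∧ 0 ≤ p' ∧ p' < A ∧ p = p' + t * A ∧
      p' * x + (q + t * B) * y + (r + t * C) * z = p * x + q * y + r * z := by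
  refine ⟨p / A, p % A, Int.ediv_nonneg hp hA.le, Int.emod_nonneg p hA.ne',
    Int.emod_lt_of_pos p hA, ?_, ?_⟩
  · have := Int.emod_add_mul_ediv p A
    linarith
  · have h1 := Int.emod_add_mul_ediv p A
    have h2 : p % A = p - A * (p / A) := by linarith
    rw [h2]
    linear_combination (-(p / A)) * hrel

theorem H.uniqY (h : H x y z g M a b c A B C) {p q r : ℤ} (hp : 0 ≤ p) (hq : 0 ≤ q)
    (hr : 0 ≤ r) (he : p * x + q * y + r * z = (b + 1) * y) : p = 0 ∧ r = 0 := by
  have hB := h.hB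
  have hC := h.hC
  have haA := h.haA
  have ha := h.ha
  have hb := h.hb
  have hc := h.hc
  obtain ⟨t, p', ht, hp', hp'A, hpt, hval⟩ := normalize (by linarith)
    h.hrel p q r hp
  have htB : 0 ≤ t * B := mul_nonneg ht (by linarith)
  have htC : 0 ≤ t * C := mul_nonneg ht (by linarith)
  by_cases h1 : c + 1 ≤ r + t * C
  · exact absurd ⟨p', q + t * B, r + t * C - (c + 1), hp', by linarith, by linarith,
      by linarith⟩ h.YZ
  by_cases h2 : p' ≤ a
  · by_cases h3 : q + t * B ≤ b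
    · exact absurd ⟨a - p', b - (q + t * B), c - (r + t * C), by linarith, by linarith,
        by linarith, by linarith [h.hM]⟩ h.mY
    · obtain ⟨e1, e2, e3⟩ := zero_of_sum h.hx h.hy h.hz (p := p') (q := q + t * B - (b + 1))
        (r := r + t * C) hp' (by omega) (by linarith) (by linarith)
      have : t * C = 0 := by linarith
      have ht0 : t = 0 := by
        rcases mul_eq_zero.mp this with h | h
        · exact h
        · linarith
      subst ht0
      constructor
      · rw [hpt, e1]; ring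
      · linarith
  · by_cases h3 : b - B + 1 ≤ q + t * B
    · exact absurd ⟨p' - (a + 1), q + t * B - (b - B + 1), r + t * C, by omega, by linarith,
        by linarith, by linarith⟩ h.Y_XY
    by_cases h4 : c - C + 1 ≤ r + t * C
    · exact absurd ⟨p' - (a + 1), q + t * B, r + t * C - (c - C + 1), by omega, by linarith,
        by linarith, by linarith⟩ h.Y_XZ
    · exact absurd ⟨a + A - p', b - B - (q + t * B), c - C - (r + t * C), by linarith, by omega,
        by omega, by linarith [h.hM, h.hrel]⟩ h.mY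

theorem H.uniqZ (h : H x y z g M a b c A B C) {p q r : ℤ} (hp : 0 ≤ p) (hq : 0 ≤ q)
    (hr : 0 ≤ r) (he : p * x + q * y + r * z = (c + 1) * z) : p = 0 ∧ q = 0 :=
  h.swap.uniqY hp hr hq (by linarith)

theorem H.uniqXY (h : H x y z g M a b c A B C) {p q r : ℤ} (hp : 0 ≤ p) (hq : 0 ≤ q)
    (hr : 0 ≤ r) (he : p * x + q * y + r * z = (a + 1) * x + (b - B + 1) * y) : r = 0 := by
  have hB := h.hB
  have hC := h.hC
  have haA := h.haA
  have ha := h.ha
  have hb := h.hb
  have hc := h.hc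
  obtain ⟨t, p', ht, hp', hp'A, hpt, hval⟩ := normalize (by linarith)
    h.hrel p q r hp
  have htB : 0 ≤ t * B := mul_nonneg ht (by linarith)
  have htC : 0 ≤ t * C := mul_nonneg ht (by linarith)
  by_cases h1 : c + 1 ≤ r + t * C
  · exact absurd ⟨p', q + t * B, r + t * C - (c + 1), hp', by linarith, by linarith,
      by linarith⟩ h.XY_Z
  by_cases h0 : b + 1 ≤ q + t * B
  · exact absurd ⟨p', q + t * B - (b + 1), r + t * C, hp', by linarith, by linarith,
      by linarith⟩ h.XY_Y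
  by_cases h2 : p' ≤ a
  · exact absurd ⟨a - p', b - (q + t * B), c - (r + t * C), by linarith, by omega,
        by omega, by linarith [h.hM]⟩ h.mXY
  · by_cases h4 : c - C + 1 ≤ r + t * C
    · exact absurd ⟨p' - (a + 1), q + t * B, r + t * C - (c - C + 1), by omega, by linarith,
        by linarith, by linarith⟩ h.XY_XZ
    by_cases h3 : b - B + 1 ≤ q + t * B
    · obtain ⟨e1, e2, e3⟩ := zero_of_sum h.hx h.hy h.hz (p := p' - (a + 1))
        (q := q + t * B - (b - B + 1))
        (r := r + t * C) (by omega) (by linarith) (by linarith) (by linarith)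
      linarith
    · exact absurd ⟨a + A - p', b - B - (q + t * B), c - C - (r + t * C), by linarith, by omega,
        by omega, by linarith [h.hM, h.hrel]⟩ h.mXY

theorem H.uniqXZ (h : H x y z g M a b c A B C) {p q r : ℤ} (hp : 0 ≤ p) (hq : 0 ≤ q)
    (hr : 0 ≤ r) (he : p * x + q * y + r * z = (a + 1) * x + (c - C + 1) * z) : q = 0 :=
  h.swap.uniqXY hp hr hq (by linarith)

theorem H.Yx (h : H x y z g M a b c A B C) : ¬ S x y z ((b + 1) * y - x) := by
  rintro ⟨p, q, r, hp, hq, hr, he⟩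
  have := h.uniqY (p := p + 1) (q := q) (r := r) (by linarith) hq hr (by linarith)
  omega

theorem H.Yz (h : H x y z g M a b c A B C) : ¬ S x y z ((b + 1) * y - z) := by
  rintro ⟨p, q, r, hp, hq, hr, he⟩
  have := h.uniqY (p := p) (q := q) (r := r + 1) hp hq (by linarith) (by linarith)
  omega

theorem H.XZy (h : H x y z g M a b c A B C) :
    ¬ S x y z ((a + 1) * x + (c - C + 1) * z - y) := by
  rintro ⟨p, q, r, hp, hq, hr, he⟩
  have := h.uniqXZ (p := p) (q := q + 1) (r := r) hp (by linarith) hr (by linarith)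
  omega

/-- the shift lemma -/
theorem H.shift (h : H x y z g M a b c A B C) {u s : ℤ} (hs : S x y z s)
    (hap : ∀ k, 1 ≤ k → ¬ S x y z (u - k * g)) (h1 : ¬ S x y z (u - s))
    (h2 : S x y z (u - s + g)) (h3 : ¬ S x y z (M - (u - s + g))) : S x y z (M - u + s) := by
  have := h.can (u - s + g) h2 ?_ h3
  · have e : M + g - (u - s + g) = M - u + s := by ring
    rwa [e] at this
  · intro k hk hS
    rcases eq_or_lt_of_le hk with hk1 | hk1
    · rw [← hk1] at hS
      have e : u - s + g - 1 * g = u - s := by ring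
      rw [e] at hS
      exact h1 hS
    · refine hap (k - 1) (by linarith) ?_
      have := S_add hS hs
      have e : u - s + g - k * g + s = u - (k - 1) * g := by ring
      rwa [e] at this

/-- membership in `D` -/
theorem H.inD (h : H x y z g M a b c A B C) {p q r n : ℤ} (hp : 0 ≤ p) (hq : 0 ≤ q) (hr : 0 ≤ r)
    (hn : n = p * x + q * y + r * z) (hS : S x y z (M - n)) :
    ∃ i, 0 ≤ i ∧ p ≤ a + i * A ∧ q ≤ b - i * B ∧ r ≤ c - i * C := by
  obtain ⟨p', q', r', hp', hq', hr', he⟩ := hS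
  obtain ⟨i, hi, h1, h2, h3⟩ := h.hPhi (p + p') (q + q') (r + r') (by linarith) (by linarith)
    (by linarith) (by linarith)
  exact ⟨i, hi, by linarith, by linarith, by linarith⟩

/-- `n ∈ D` implies one of two boxes (for the second and third coordinates) -/
theorem H.inD' (h : H x y z g M a b c A B C) {p q r n : ℤ} (hp : 0 ≤ p) (hq : 0 ≤ q) (hr : 0 ≤ r)
    (hn : n = p * x + q * y + r * z) (hS : S x y z (M - n)) :
    (p ≤ a ∧ q ≤ b ∧ r ≤ c) ∨ (q ≤ b - B ∧ r ≤ c - C) := by
  obtain ⟨i, hi, h1, h2, h3⟩ := h.inD hp hq hr hn hS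
  have hB := h.hB
  have hC := h.hC
  rcases eq_or_lt_of_le hi with h0 | h0
  · subst h0
    left; exact ⟨by linarith, by linarith, by linarith⟩
  · right
    have e1 : 1 * B ≤ i * B := mul_le_mul_of_nonneg_right (by linarith) (by linarith)
    have e2 : 1 * C ≤ i * C := mul_le_mul_of_nonneg_right (by linarith) (by linarith)
    exact ⟨by linarith, by linarith⟩

/-- factorizations of `M + g` with first coordinate `< A` -/
def Pi (x y z A N p q r : ℤ) : Prop :=
  0 ≤ p ∧ p < A ∧ 0 ≤ q ∧ 0 ≤ r ∧ p * x + q * y + r * z = N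

theorem Pi.swap {N p q r : ℤ} (h : Pi x y z A N p q r) : Pi x z y A N p r q :=
  ⟨h.1, h.2.1, h.2.2.2.1, h.2.2.1, by linarith [h.2.2.2.2]⟩

theorem H.piUp (h : H x y z g M a b c A B C) {p q r : ℤ} (hv : p * x + q * y + r * z = M + g)
    (t : ℤ) (h1 : a + t * A ≤ p) (h2 : b - t * B ≤ q) (h3 : c - t * C ≤ r) : False := by
  refine h.hg ⟨p - a - t * A, q - b + t * B, r - c + t * C, by linarith, by linarith,
    by linarith, ?_⟩
  linear_combination (-1) * hv - h.hM + t * h.hrel

theorem H.piDown (h : H x y z g M a b c A B C) {p q r : ℤ} (hv : p * x + q * y + r * z = M + g)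
    (t : ℤ) (h1 : p ≤ 2 * a + t * A) (h2 : q ≤ 2 * b - t * B) (h3 : r ≤ 2 * c - t * C) :
    False := by
  refine h.hMg ⟨2 * a + t * A - p, 2 * b - t * B - q, 2 * c - t * C - r, by linarith,
    by linarith, by linarith, ?_⟩
  linear_combination hv + 2 * h.hM - t * h.hrel

/-- Case I. -/
theorem H.caseI_half (h : H x y z g M a b c A B C) {p q r : ℤ}
    (hP : Pi x y z A (M + g) p q r) (hq : b + 1 ≤ q) (hr : c + 1 ≤ r) (hq2 : q ≤ b + B - 1) :
    False := by
  have hB := h.hB
  have hC := h.hC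
  have haA := h.haA
  have ha := h.ha
  have hb := h.hb
  have hc := h.hc
  have hMv := h.hM
  have hrel := h.hrel
  obtain ⟨hp0, hpA, hq0, hr0, hv⟩ := hP
  have hpa : p < a := by
    by_contra hcon
    push Not at hcon
    exact h.piUp hv 0 (by linarith) (by linarith) (by linarith)
  have hr2 : 2 * c + 1 ≤ r := by
    by_contra hcon
    push Not at hcon
    exact h.piDown hv 0 (by linarith) (by linarith) (by linarith)
  -- e = XZ - y + g
  have hS := h.shift (u := (a + 1) * x + (c - C + 1) * z) (s := y) S_y h.apXZ h.XZy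
    ⟨p + 1, q - b - 1, r - C + 1, by linarith, by linarith, by linarith,
      by linear_combination (-1) * hv - hMv⟩ (by
      intro hD
      have := h.inD' (p := p + 1) (q := q - b - 1) (r := r - C + 1) (by linarith) (by linarith)
        (by linarith) (by linear_combination (-1) * hv - hMv) hD
      rcases this with ⟨_, _, h3⟩ | ⟨_, h3⟩ <;> linarith)
  obtain ⟨j, q', ν, hj, hq', hν, he⟩ := hS
  have hq'0 : q' = 0 := by
    by_contra hne
    exact h.mXZ ⟨j, q' - 1, ν, hj, by omega, hν, by linarith⟩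
  subst hq'0
  have hj2 : j + a + 2 ≤ A := by
    by_contra hcon
    push Not at hcon
    exact h.mZ ⟨a + 1 + j - A, B - 1, ν, by linarith, by linarith, hν, by
      linear_combination he + hrel⟩
  have hν2 : r - c ≤ ν := by
    by_contra hcon
    push Not at hcon
    exact h.hg ⟨p - a - 1 + A - j, q - B + 1, r - c - 1 - ν, by linarith, by linarith,
      by linarith, by linear_combination (-1) * hv - he - hrel⟩
  have := h.uniqY (p := 1 + j) (q := 0) (r := ν - C + 1) (by linarith) le_rfl (by linarith)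
    (by linear_combination (-1) * he + hMv)
  omega

theorem H.caseI (h : H x y z g M a b c A B C) {p q r : ℤ}
    (hP : Pi x y z A (M + g) p q r) (hq : b + 1 ≤ q) (hr : c + 1 ≤ r) : False := by
  by_cases h1 : q ≤ b + B - 1
  · exact h.caseI_half hP hq hr h1
  by_cases h2 : r ≤ c + C - 1
  · exact h.swap.caseI_half hP.swap hr hq h2
  · exact h.piUp hP.2.2.2.2 (-1) (by linarith [hP.1, h.haA]) (by linarith) (by linarith)

end Pool.Agent.Helper24.CanRed
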