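import Mathlib

set_option autoImplicit false

namespace Pool.Agent.Helper24.CanRed

/-- Farey descent. -/
theorem farey_descent (D e f2 f3 a m : ℤ) (he : 0 < e) (hf3 : 0 < f3)
    (ha : a = f2 + f3 - e) (hef : e < f3) (hm : D < (m + 1) * f3)
    (H : ∀ k s : ℤ, 1 ≤ k → k ≤ m → (k * a + e < D * s ∨ D * s < k * f2 - e)) :
    ∀ n : ℕ, ∀ p q p' q' : ℤ, 2 ≤ q → 2 ≤ q' → q ≤ m → q' ≤ m → p' * q - p * q' = 1 →
      D * p + e < q * f2 → q' * a < D * p' - e → 2 * m - (q + q') ≤ (n : ℤ) → False := by
  intro n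
  induction n with
  | zero =>
    intro p q p' q' hq hq' hqm hqm' hdet h1 h2 hn
    -- derive q + q' ≤ m and q + q' ≥ 2 m gives contradiction
    have hI1 : q * q' * (f3 - e) < D - e * (q + q') := by
      have e1 : q * q' * (f3 - e) = q * (q' * a) - q' * (q * f2) := by rw [ha]; ring
      have e2 : q * (q' * a) < q * (D * p' - e) := by
        apply mul_lt_mul_of_pos_left h2; linarith
      have e3 : q' * (D * p + e) < q' * (q * f2) := by
        apply mul_lt_mul_of_pos_left h1; linarith
      have e4 : q * (D * p' - e) - q' * (D * p + e) = D - e * (q + q') := by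
        have : D * (p' * q - p * q') = D := by rw [hdet]; ring
        nlinarith [this]
      linarith
    have hqq : 0 < q * q' := by positivity
    have hI2 : e * (q + q') < D := by
      have : 0 < q * q' * (f3 - e) := mul_pos hqq (by linarith)
      linarith
    have hqq2 : 0 ≤ q * q' - q - q' := by nlinarith
    have hI3 : (q + q') * f3 < D := by
      have h5 : q * q' * f3 < D + e * (q * q' - q - q') := by nlinarith
      have h6 : (q + q') * (q * q' * f3) < (q + q') * (D + e * (q * q' - q - q')) := by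
        apply mul_lt_mul_of_pos_left h5; linarith
      have h7 : (e * (q + q')) * (q * q' - q - q') ≤ D * (q * q' - q - q') :=
        mul_le_mul_of_nonneg_right hI2.le hqq2
      have h8 : (q * q') * ((q + q') * f3) < (q * q') * D := by nlinarith
      exact lt_of_mul_lt_mul_left h8 hqq.le
    have hle : q + q' ≤ m := by
      by_contra hcon
      push Not at hcon
      have : (m + 1) * f3 ≤ (q + q') * f3 := mul_le_mul_of_nonneg_right (by linarith) hf3.le
      linarith
    simp at hn
    linarith
  | succ n ih =>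
    intro p q p' q' hq hq' hqm hqm' hdet h1 h2 hn
    have hI1 : q * q' * (f3 - e) < D - e * (q + q') := by
      have e1 : q * q' * (f3 - e) = q * (q' * a) - q' * (q * f2) := by rw [ha]; ring
      have e2 : q * (q' * a) < q * (D * p' - e) := by
        apply mul_lt_mul_of_pos_left h2; linarith
      have e3 : q' * (D * p + e) < q' * (q * f2) := by
        apply mul_lt_mul_of_pos_left h1; linarith
      have e4 : q * (D * p' - e) - q' * (D * p + e) = D - e * (q + q') := by
        have : D * (p' * q - p * q') = D := by rw [hdet]; ring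
        nlinarith [this]
      linarith
    have hqq : 0 < q * q' := by positivity
    have hI2 : e * (q + q') < D := by
      have : 0 < q * q' * (f3 - e) := mul_pos hqq (by linarith)
      linarith
    have hqq2 : 0 ≤ q * q' - q - q' := by nlinarith
    have hI3 : (q + q') * f3 < D := by
      have h5 : q * q' * f3 < D + e * (q * q' - q - q') := by nlinarith
      have h6 : (q + q') * (q * q' * f3) < (q + q') * (D + e * (q * q' - q - q')) := by
        apply mul_lt_mul_of_pos_left h5; linarith
      have h7 : (e * (q + q')) * (q * q' - q - q') ≤ D * (q * q' - q - q') :=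
        mul_le_mul_of_nonneg_right hI2.le hqq2
      have h8 : (q * q') * ((q + q') * f3) < (q * q') * D := by nlinarith
      exact lt_of_mul_lt_mul_left h8 hqq.le
    have hle : q + q' ≤ m := by
      by_contra hcon
      push Not at hcon
      have : (m + 1) * f3 ≤ (q + q') * f3 := mul_le_mul_of_nonneg_right (by linarith) hf3.le
      linarith
    rcases H (q + q') (p + p') (by linarith) hle with h | h
    · refine ih p q (p + p') (q + q') hq (by linarith) hqm hle ?_ h1 ?_ ?_
      · linarith [hdet, (by ring : (p + p') * q - p * (q + q') = p' * q - p * q')]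
      · linarith
      · push_cast at hn; linarith
    · refine ih (p + p') (q + q') p' q' (by linarith) hq' hle hqm' ?_ ?_ h2 ?_
      · linarith [hdet, (by ring : p' * (q + q') - (p + p') * q' = p' * q - p * q')]
      · linarith
      · push_cast at hn; linarith

theorem lemT_sorted (D e f1 f2 f3 : ℤ) (h3 : 1 ≤ f3) (h23 : f3 ≤ f2) (h12 : f2 ≤ f1)
    (h1 : f1 ≤ D) (he : 0 < e) (hs : f1 + f2 + f3 = D + e) :
    ∃ k T1 T2 T3 : ℤ, 1 ≤ k ∧ T1 + T2 + T3 = k + 1 ∧
      max 0 (k * f1 - D * T1) + max 0 (k * f2 - D * T2) + max 0 (k * f3 - D * T3) ≤ e := by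
  by_contra hcon
  push Not at hcon
  -- k = 1, T = (1,1,0)
  have hef : e < f3 := by
    have := hcon 1 1 1 0 le_rfl (by norm_num)
    have e1 : max 0 (1 * f1 - D * 1) = 0 := max_eq_left (by linarith)
    have e2 : max 0 (1 * f2 - D * 1) = 0 := max_eq_left (by linarith)
    have e3 : max 0 (1 * f3 - D * 0) = f3 := by
      rw [max_eq_right (by linarith)]; ring
    linarith
  have hf3 : 0 < f3 := by linarith
  obtain ⟨a, ha⟩ : ∃ a, a = D - f1 := ⟨_, rfl⟩
  have ha' : a = f2 + f3 - e := by linarith
  obtain ⟨m, hmdef⟩ : ∃ m, m = D / f3 := ⟨_, rfl⟩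
  have hm1 : m * f3 ≤ D := by rw [hmdef]; exact Int.ediv_mul_le D hf3.ne'
  have hm2 : D < (m + 1) * f3 := by
    rw [hmdef]; exact Int.lt_ediv_add_one_mul_self D hf3
  have hmpos : 1 ≤ m := by
    by_contra hc
    push Not at hc
    have : (m + 1) * f3 ≤ 1 * f3 := mul_le_mul_of_nonneg_right (by linarith) hf3.le
    linarith
  -- H
  have H : ∀ k s : ℤ, 1 ≤ k → k ≤ m → (k * a + e < D * s ∨ D * s < k * f2 - e) := by
    intro k s hk hkm
    have hc := hcon k (k - s) s 1 hk (by ring)
    have e1 : k * f1 - D * (k - s) = D * s - k * a := by rw [ha]; ring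
    have hkf3 : k * f3 ≤ D := le_trans (mul_le_mul_of_nonneg_right hkm hf3.le) hm1
    have e3 : max 0 (k * f3 - D * 1) = 0 := max_eq_left (by linarith)
    rw [e1, e3] at hc
    have hka : k * f2 ≤ k * a := mul_le_mul_of_nonneg_left (by linarith) (by linarith)
    rcases le_total (D * s - k * a) 0 with hA | hA
    · rw [max_eq_left hA] at hc
      rcases le_total (k * f2 - D * s) 0 with hB | hB
      · rw [max_eq_left hB] at hc; linarith
      · rw [max_eq_right hB] at hc; right; linarith
    · rw [max_eq_right hA] at hc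
      rw [max_eq_left (by linarith : k * f2 - D * s ≤ 0)] at hc
      left; linarith
  by_cases hA : ∀ k : ℤ, 1 ≤ k → k ≤ m → k * a + e < D
  · -- k = m+1, T = (m,1,1)
    have hc := hcon (m + 1) m 1 1 (by linarith) (by ring)
    have hma := hA m hmpos le_rfl
    have e1 : (m + 1) * f1 - D * m = D - (m + 1) * a := by rw [ha]; ring
    have e2 : max 0 ((m + 1) * f2 - D * 1) = (m + 1) * f2 - D := by
      rw [max_eq_right]; · ring
      have : (m + 1) * f3 ≤ (m + 1) * f2 := mul_le_mul_of_nonneg_left h23 (by linarith)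
      linarith
    have e3 : max 0 ((m + 1) * f3 - D * 1) = (m + 1) * f3 - D := by
      rw [max_eq_right]; · ring
      linarith
    rw [e1, e2, e3] at hc
    have hme : m * e ≤ D := by
      have : m * e ≤ m * f3 := mul_le_mul_of_nonneg_left hef.le (by linarith)
      linarith
    rcases le_total (D - (m + 1) * a) 0 with hB | hB
    · rw [max_eq_left hB] at hc
      -- need (m+1)(f2+f3) - 2D ≤ e
      have h5 : (m + 1) * f2 + (m + 1) * f3 = (m + 1) * a + (m + 1) * e := by rw [ha']; ring
      -- (m+1) a + m e ≤ 2 D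
      have h6 : (m + 1) * a + m * e ≤ 2 * D := by
        -- m * ((m+1) a + m e) ≤ 2 D m
        have h7 : m * a ≤ D - e := by linarith
        have h8 : m * ((m + 1) * a + m * e) ≤ m * (2 * D) := by
          have h9 : (m + 1) * (m * a) ≤ (m + 1) * (D - e) :=
            mul_le_mul_of_nonneg_left h7 (by linarith)
          rcases eq_or_lt_of_le hmpos with hm1' | hm2'
          · rw [← hm1'] at h9 ⊢; linarith
          · have hm3 : 2 ≤ m := by omega
            have h10 : (m * e) * (m - 1) ≤ D * (m - 1) :=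
              mul_le_mul_of_nonneg_right hme (by linarith)
            have h11 : 0 ≤ e := he.le
            nlinarith
        exact le_of_mul_le_mul_left h8 (by linarith)
      linarith
    · rw [max_eq_right hB] at hc
      have h5 : (m + 1) * f2 + (m + 1) * f3 = (m + 1) * a + (m + 1) * e := by rw [ha']; ring
      have h6 : (m + 1) * e = m * e + e := by ring
      linarith
  · push Not at hA
    obtain ⟨k0, hk0, hk0m, hk0a⟩ := hA
    -- minimal j
    have hex : ∃ n : ℕ, 1 ≤ (n : ℤ) ∧ (n : ℤ) ≤ m ∧ D ≤ (n : ℤ) * a + e := by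
      refine ⟨k0.toNat, ?_, ?_, ?_⟩ <;> rw [Int.toNat_of_nonneg (by linarith)] <;> assumption
    classical
    obtain ⟨n, ⟨hn1, hnm, hna⟩, hmin⟩ : ∃ n : ℕ, (1 ≤ (n : ℤ) ∧ (n : ℤ) ≤ m ∧ D ≤ (n : ℤ) * a + e) ∧
        ∀ n' : ℕ, n' < n → ¬ (1 ≤ (n' : ℤ) ∧ (n' : ℤ) ≤ m ∧ D ≤ (n' : ℤ) * a + e) :=
      ⟨Nat.find hex, Nat.find_spec hex, fun n' h => Nat.find_min hex h⟩
    have hjf : D < (n : ℤ) * f2 - e := by
      rcases H n 1 hn1 hnm with h | h
      · linarith
      · linarith
    have hn2 : 2 ≤ n := by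
      by_contra hc
      have : n = 1 := by omega
      subst this
      simp at hjf
      linarith
    have hn3 : 3 ≤ n := by
      by_contra hc
      have : n = 2 := by omega
      subst this
      push_cast at hjf
      linarith
    have hpred : ((n - 1 : ℕ) : ℤ) = (n : ℤ) - 1 := by push_cast [Nat.cast_sub (by omega : 1 ≤ n)]; ring
    have hprev : ((n : ℤ) - 1) * a + e < D := by
      have := hmin (n - 1) (by omega)
      rw [hpred] at this
      by_contra hc
      push Not at hc
      exact this ⟨by omega, by omega, hc⟩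
    refine farey_descent D e f2 f3 a m he hf3 ha' hef hm2 H (2 * m - (2 * n - 1)).toNat 1 n 1 (n - 1)
      (by omega) (by omega) hnm (by omega) (by ring) (by linarith) (by linarith) ?_
    have := Int.self_le_toNat (2 * m - (2 * (n : ℤ) - 1))
    linarith

theorem lemT (D e f1 f2 f3 : ℤ) (h1 : 1 ≤ f1) (h2 : 1 ≤ f2) (h3 : 1 ≤ f3)
    (h1' : f1 ≤ D) (h2' : f2 ≤ D) (h3' : f3 ≤ D) (he : 0 < e) (hs : f1 + f2 + f3 = D + e) :
    ∃ k T1 T2 T3 : ℤ, 1 ≤ k ∧ T1 + T2 + T3 = k + 1 ∧
      max 0 (k * f1 - D * T1) + max 0 (k * f2 - D * T2) + max 0 (k * f3 - D * T3) ≤ e := by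
  rcases le_total f1 f2 with h12 | h12
  · rcases le_total f2 f3 with h23 | h23
    · -- f1 ≤ f2 ≤ f3
      obtain ⟨k, T1, T2, T3, hk, hT, hc⟩ := lemT_sorted D e f3 f2 f1 h1 h12 h23 h3' he (by linarith)
      exact ⟨k, T3, T2, T1, hk, by linarith, by linarith⟩
    · rcases le_total f1 f3 with h13 | h13
      · -- f1 ≤ f3 ≤ f2
        obtain ⟨k, T1, T2, T3, hk, hT, hc⟩ :=
          lemT_sorted D e f2 f3 f1 h1 h13 h23 h2' he (by linarith)
        exact ⟨k, T3, T1, T2, hk, by linarith, by linarith⟩
      · -- f3 ≤ f1 ≤ f2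
        obtain ⟨k, T1, T2, T3, hk, hT, hc⟩ :=
          lemT_sorted D e f2 f1 f3 h3 h13 h12 h2' he (by linarith)
        exact ⟨k, T2, T1, T3, hk, by linarith, by linarith⟩
  · rcases le_total f1 f3 with h13 | h13
    · -- f2 ≤ f1 ≤ f3
      obtain ⟨k, T1, T2, T3, hk, hT, hc⟩ := lemT_sorted D e f3 f1 f2 h2 h12 h13 h3' he (by linarith)
      exact ⟨k, T2, T3, T1, hk, by linarith, by linarith⟩
    · rcases le_total f2 f3 with h23 | h23
      · -- f2 ≤ f3 ≤ f1
        obtain ⟨k, T1, T2, T3, hk, hT, hc⟩ :=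
          lemT_sorted D e f1 f3 f2 h2 h23 h13 h1' he (by linarith)
        exact ⟨k, T1, T3, T2, hk, by linarith, by linarith⟩
      · obtain ⟨k, T1, T2, T3, hk, hT, hc⟩ :=
          lemT_sorted D e f1 f2 f3 h3 h23 h12 h1' he (by linarith)
        exact ⟨k, T1, T2, T3, hk, by linarith, by linarith⟩

end Pool.Agent.Helper24.CanRed
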