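import Pool.Agent.Helper24.CanRed.MinN
import Pool.Agent.Helper24.CanRed.Defs

set_option autoImplicit false

namespace Pool.Agent.Helper24.CanRed

theorem Mem.add {Γ : AddSubmonoid ℕ} {m n : ℤ} (h : Mem Γ m) (h' : Mem Γ n) : Mem Γ (m + n) := by
  obtain ⟨a, ha, rfl⟩ := h
  obtain ⟨b, hb, rfl⟩ := h'
  exact ⟨a + b, Γ.add_mem ha hb, by push_cast; ring⟩

theorem mem_mul {Γ : AddSubmonoid ℕ} {s : ℕ} (hs : s ∈ Γ) {k : ℤ} (hk : 0 ≤ k) :
    Mem Γ (k * s) := by
  refine ⟨k.toNat • s, Γ.nsmul_mem hs _, ?_⟩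
  rw [smul_eq_mul]
  push_cast
  rw [Int.toNat_of_nonneg hk]

theorem gen {Γ : AddSubmonoid ℕ} {g x y z : ℕ}
    (hgen : minimalGenerators Γ = {g, x, y, z}) :
    ∀ n : ℕ, n ∈ Γ → ∃ k p q r : ℕ, n = k * g + p * x + q * y + r * z := by
  intro n
  induction n using Nat.strong_induction_on with
  | _ n ih =>
    intro hn
    by_cases h0 : n = 0
    · exact ⟨0, 0, 0, 0, by simp [h0]⟩
    by_cases hmin : n ∈ minimalGenerators Γ
    · rw [hgen] at hmin
      simp only [Set.mem_insert_iff, Set.mem_singleton_iff] at hmin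
      rcases hmin with h | h | h | h
      · exact ⟨1, 0, 0, 0, by simp [h]⟩
      · exact ⟨0, 1, 0, 0, by simp [h]⟩
      · exact ⟨0, 0, 1, 0, by simp [h]⟩
      · exact ⟨0, 0, 0, 1, by simp [h]⟩
    · simp only [minimalGenerators, Set.mem_ofPred_eq, not_and, not_forall, not_or] at hmin
      obtain ⟨a, ha, b, hb, hab, hane, hbne⟩ := hmin hn h0
      obtain ⟨k, p, q, r, e⟩ := ih a (by omega) ha
      obtain ⟨k', p', q', r', e'⟩ := ih b (by omega) hb
      exact ⟨k + k', p + p', q + q', r + r', by rw [← hab, e, e']; ring⟩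

theorem mem_iff {Γ : AddSubmonoid ℕ} {g x y z : ℕ}
    (hgen : minimalGenerators Γ = {g, x, y, z}) (n : ℤ) :
    Mem Γ n ↔ ∃ k : ℤ, 0 ≤ k ∧ S x y z (n - k * g) := by
  constructor
  · rintro ⟨m, hm, rfl⟩
    obtain ⟨k, p, q, r, e⟩ := gen hgen m hm
    refine ⟨k, by positivity, p, q, r, by positivity, by positivity, by positivity, ?_⟩
    rw [e]; push_cast; ring
  · rintro ⟨k, hk, p, q, r, hp, hq, hr, e⟩
    have hg : g ∈ Γ := by
      have : g ∈ minimalGenerators Γ := by rw [hgen]; simp
      exact this.1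
    have hx : x ∈ Γ := by
      have : x ∈ minimalGenerators Γ := by rw [hgen]; simp
      exact this.1
    have hy : y ∈ Γ := by
      have : y ∈ minimalGenerators Γ := by rw [hgen]; simp
      exact this.1
    have hz : z ∈ Γ := by
      have : z ∈ minimalGenerators Γ := by rw [hgen]; simp
      exact this.1
    have h1 := ((mem_mul hg hk).add (mem_mul hx hp)).add ((mem_mul hy hq).add (mem_mul hz hr))
    have e2 : k * (g : ℤ) + p * x + (q * y + r * z) = n := by linarith
    rwa [e2] at h1

theorem exists_gens {Γ : AddSubmonoid ℕ} (hedim : (minimalGenerators Γ).encard = 4) {g : ℕ}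
    (hg : IsLeast {s : ℕ | s ∈ Γ ∧ s ≠ 0} g) :
    ∃ x y z : ℕ, g < x ∧ g < y ∧ g < z ∧ minimalGenerators Γ = {g, x, y, z} := by
  have hgm : g ∈ minimalGenerators Γ := by
    refine ⟨hg.1.1, hg.1.2, ?_⟩
    intro a ha b hb hab
    by_contra hcon
    push Not at hcon
    have h1 := hg.2 ⟨ha, hcon.1⟩
    have h2 := hg.2 ⟨hb, hcon.2⟩
    have h3 : g ≠ 0 := hg.1.2
    omega
  have h3 : (minimalGenerators Γ \ {g}).encard = 3 := by
    have := Set.encard_sdiff_singleton_add_one hgm
    rw [hedim] at this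
    have e : (4 : ℕ∞) = 3 + 1 := by norm_num
    rw [e] at this
    exact WithTop.add_right_cancel ENat.one_ne_top this
  obtain ⟨x, y, z, hxy, hxz, hyz, he⟩ := Set.encard_eq_three.mp h3
  have hlt : ∀ s ∈ minimalGenerators Γ \ {g}, g < s := by
    intro s hs
    have h4 := hg.2 ⟨hs.1.1, hs.1.2.1⟩
    have h5 : s ≠ g := fun h => hs.2 (by simp [h])
    omega
  refine ⟨x, y, z, hlt x (by rw [he]; simp), hlt y (by rw [he]; simp),
    hlt z (by rw [he]; simp), ?_⟩
  rw [← he]
  exact (Set.insert_sdiff_self_of_mem hgm).symm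

theorem main (Γ : AddSubmonoid ℕ) (hedim : (minimalGenerators Γ).encard = 4)
    (hcan : HasCanonicalReduction Γ) : (PF Γ).encard ≤ 4 := by
  obtain ⟨g, F, hg, hF, hc⟩ := hcan
  obtain ⟨x, y, z, hgx, hgy, hgz, hgen⟩ := exists_gens hedim hg
  have hg0 : 0 < g := Nat.pos_of_ne_zero hg.1.2
  have hiff := mem_iff hgen
  have hgG : g ∈ Γ := hg.1.1
  have hxG : x ∈ Γ := by
    have : x ∈ minimalGenerators Γ := by rw [hgen]; simp
    exact this.1
  have hyG : y ∈ Γ := by
    have : y ∈ minimalGenerators Γ := by rw [hgen]; simp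
    exact this.1
  have hzG : z ∈ Γ := by
    have : z ∈ minimalGenerators Γ := by rw [hgen]; simp
    exact this.1
  -- 1 is not in Γ, hence F ≥ 1
  have h1 : ¬ Mem Γ 1 := by
    rintro ⟨m, hm, hm1⟩
    have hm1' : m = 1 := by exact_mod_cast hm1
    subst hm1'
    have hxm : x ∈ minimalGenerators Γ := by rw [hgen]; simp
    have hall : ∀ n : ℕ, n ∈ Γ := by
      intro n
      have := Γ.nsmul_mem hm n
      simpa using this
    have := hxm.2.2 1 hm (x - 1) (hall _) (by omega)
    omega
  have hF1 : 1 ≤ F := hF.2 h1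
  obtain ⟨M, hMdef⟩ : ∃ M : ℤ, M = F + g := ⟨_, rfl⟩
  have hgM : (g : ℤ) < M := by rw [hMdef]; linarith
  have hFn : ¬ Mem Γ F := hF.1
  have hbig : ∀ n : ℤ, F < n → Mem Γ n := by
    intro n hn
    by_contra hcon
    have : n ≤ F := hF.2 hcon
    linarith
  -- S-properties of M
  have hMk : ∀ k : ℤ, 1 ≤ k → ¬ S x y z (M - k * g) := by
    intro k hk hS
    apply hFn
    rw [hiff]
    refine ⟨k - 1, by linarith, ?_⟩
    have e : F - (k - 1) * g = M - k * g := by rw [hMdef]; ring
    rw [e]; exact hS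
  have hSM : S x y z M := by
    have := hbig M (by rw [hMdef]; have : (0:ℤ) < g := by exact_mod_cast hg0
                       linarith)
    rw [hiff] at this
    obtain ⟨k, hk, hS⟩ := this
    rcases eq_or_lt_of_le hk with h | h
    · rw [← h] at hS
      simpa using hS
    · exact absurd hS (hMk k h)
  -- gaps
  have hgap : ∀ n : ℤ, ¬ Mem Γ n → Mem Γ (M - n) := by
    intro n hn
    obtain ⟨q, ⟨hq1, hq2⟩, hqmax⟩ := Int.exists_greatest_of_bdd
      (P := fun m => ¬ Mem Γ m ∧ Mem Γ (m - n)) ⟨F, fun m hm => hF.2 hm.1⟩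
      ⟨n, hn, ⟨0, Γ.zero_mem, by simp⟩⟩
    have hqPF : q ∈ PF Γ := by
      refine ⟨hq1, ?_⟩
      intro s hs hs0
      by_contra hcon
      have h5 : Mem Γ (q + s - n) := by
        have := hq2.add ⟨s, hs, rfl⟩
        have e : q - n + (s : ℤ) = q + s - n := by ring
        rwa [e] at this
      have := hqmax (q + s) ⟨hcon, h5⟩
      have h6 : (0 : ℤ) < s := by exact_mod_cast Nat.pos_of_ne_zero hs0
      linarith
    have h7 := (hc q hqPF).add hq2
    have e : (g : ℤ) + F - q + (q - n) = M - n := by rw [hMdef]; ring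
    rwa [e] at h7
  have hcan' : ∀ u, S x y z u → (∀ k, 1 ≤ k → ¬ S x y z (u - k * g)) → ¬ S x y z (M - u) →
      S x y z (M + g - u) := by
    intro u hu hk hm
    have h5 : ¬ Mem Γ (u - g) := by
      rw [hiff]
      rintro ⟨k, hk0, hS⟩
      refine hk (k + 1) (by linarith) ?_
      have e : u - (k + 1) * g = u - g - k * g := by ring
      rw [e]; exact hS
    have h6 := hgap _ h5
    rw [hiff] at h6
    obtain ⟨k, hk0, hS⟩ := h6
    rcases eq_or_lt_of_le hk0 with h | h
    · rw [← h] at hS
      have e : M - (u - g) - 0 * g = M + g - u := by ring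
      rwa [e] at hS
    · exfalso
      have h7 := S_add hS hu
      have e : M - (u - g) - k * g + u = M - (k - 1) * g := by ring
      rw [e] at h7
      rcases eq_or_lt_of_le (by linarith : (1:ℤ) ≤ k) with h8 | h8
      · rw [← h8] at hS
        apply hm
        have e2 : M - (u - g) - 1 * g = M - u := by ring
        rwa [e2] at hS
      · exact hMk (k - 1) (by linarith) h7
  obtain ⟨T, hT, hT2⟩ := three_minimal x y z g M (by exact_mod_cast hg0) (by exact_mod_cast hgx)
    (by exact_mod_cast hgy) (by exact_mod_cast hgz) hgM hSM hMk hcan'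
  -- pseudo-Frobenius numbers
  have hsub : PF Γ ⊆ ((insert F (T.image (fun t => M - t)) : Finset ℤ) : Set ℤ) := by
    intro q hq
    rw [Finset.mem_coe, Finset.mem_insert]
    by_cases hqF : q = F
    · exact Or.inl hqF
    right
    rw [Finset.mem_image]
    refine ⟨M - q, hT2 _ ?_, by ring⟩
    have hMq : Mem Γ (M - q) := by
      have := hc q hq
      have e : (g : ℤ) + F - q = M - q := by rw [hMdef]; ring
      rwa [e] at this
    have hap : ∀ k, 1 ≤ k → ¬ S x y z (M - q - k * g) := by
      intro k hk hS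
      have h5 : Mem Γ (F - q) := by
        rw [hiff]
        refine ⟨k - 1, by linarith, ?_⟩
        have e : F - q - (k - 1) * g = M - q - k * g := by rw [hMdef]; ring
        rw [e]; exact hS
      obtain ⟨m, hm, hme⟩ := h5
      by_cases hm0 : m = 0
      · subst hm0
        apply hqF
        push_cast at hme
        linarith
      · have := hq.2 m hm hm0
        rw [hme] at this
        apply hFn
        have e : q + (F - q) = F := by ring
        rwa [e] at this
    have hSu : S x y z (M - q) := by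
      rw [hiff] at hMq
      obtain ⟨k, hk, hS⟩ := hMq
      rcases eq_or_lt_of_le hk with h | h
      · rw [← h] at hS
        simpa using hS
      · exact absurd hS (hap k h)
    have hmin : ∀ s : ℕ, s ∈ Γ → s ≠ 0 → S x y z (M - q - s) →
        S x y z (M - (M - q - s)) := by
      intro s hs hs0 hS
      have h5 := hq.2 s hs hs0
      rw [hiff] at h5
      obtain ⟨k, hk, hS2⟩ := h5
      rcases eq_or_lt_of_le hk with h | h
      · rw [← h] at hS2
        have e : q + (s : ℤ) - 0 * g = M - (M - q - s) := by ring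
        rwa [e] at hS2
      · exfalso
        refine hMk k (by linarith) ?_
        have := S_add hS hS2
        have e : M - q - s + (q + s - k * g) = M - k * g := by ring
        rwa [e] at this
    refine ⟨hSu, hap, ?_, hmin x hxG (by omega), hmin y hyG (by omega), hmin z hzG (by omega)⟩
    intro hS
    have e : M - (M - q) = q := by ring
    rw [e] at hS
    apply hq.1
    rw [hiff]
    exact ⟨0, le_rfl, by simpa using hS⟩
  calc (PF Γ).encard ≤ (((insert F (T.image (fun t => M - t)) : Finset ℤ) : Set ℤ)).encard :=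
        Set.encard_le_encard hsub
    _ = ((insert F (T.image (fun t => M - t)) : Finset ℤ).card : ℕ∞) := Set.encard_coe_eq_coe_finsetCard _
    _ ≤ 4 := by
        have h5 : (insert F (T.image (fun t => M - t)) : Finset ℤ).card ≤ 4 := by
          calc (insert F (T.image (fun t => M - t)) : Finset ℤ).card
              ≤ (T.image (fun t => M - t)).card + 1 := Finset.card_insert_le _ _
            _ ≤ T.card + 1 := Nat.add_le_add_right Finset.card_image_le 1
            _ ≤ 4 := by omega
        exact_mod_cast h5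

end Pool.Agent.Helper24.CanRed
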