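import Pool.Agent.Helper24.CanRed.Str

set_option autoImplicit false

namespace Pool.Agent.Helper24.CanRed

/-- minimal elements of `N` -/
def MinN (x y z g M u : ℤ) : Prop :=
  S x y z u ∧ (∀ k, 1 ≤ k → ¬ S x y z (u - k * g)) ∧ ¬ S x y z (M - u) ∧
  (S x y z (u - x) → S x y z (M - (u - x))) ∧
  (S x y z (u - y) → S x y z (M - (u - y))) ∧
  (S x y z (u - z) → S x y z (M - (u - z)))

theorem S_swap12 {x y z n : ℤ} (h : S x y z n) : S y x z n := by
  obtain ⟨p, q, r, hp, hq, hr, hn⟩ := h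
  exact ⟨q, p, r, hq, hp, hr, by linarith⟩

theorem S_rot {x y z n : ℤ} (h : S x y z n) : S z x y n := by
  obtain ⟨p, q, r, hp, hq, hr, hn⟩ := h
  exact ⟨r, p, q, hr, hp, hq, by linarith⟩

theorem S_rot' {x y z n : ℤ} (h : S z x y n) : S x y z n := by
  obtain ⟨p, q, r, hp, hq, hr, hn⟩ := h
  exact ⟨q, r, p, hq, hr, hp, by linarith⟩

theorem MinN.swap12 {x y z g M u : ℤ} (h : MinN x y z g M u) : MinN y x z g M u := by
  obtain ⟨h1, h2, h3, h4, h5, h6⟩ := h
  exact ⟨S_swap12 h1, fun k hk hs => h2 k hk (S_swap12 hs), fun hs => h3 (S_swap12 hs),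
    fun hs => S_swap12 (h5 (S_swap12 hs)), fun hs => S_swap12 (h4 (S_swap12 hs)),
    fun hs => S_swap12 (h6 (S_swap12 hs))⟩

theorem MinN.rot {x y z g M u : ℤ} (h : MinN x y z g M u) : MinN z x y g M u := by
  obtain ⟨h1, h2, h3, h4, h5, h6⟩ := h
  exact ⟨S_rot h1, fun k hk hs => h2 k hk (S_rot' hs), fun hs => h3 (S_rot' hs),
    fun hs => S_rot (h6 (S_rot' hs)), fun hs => S_rot (h4 (S_rot' hs)),
    fun hs => S_rot (h5 (S_rot' hs))⟩

/-- separation of a minimal element from a non-divisor of `M` -/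
theorem MinN.sep {x y z g M u t : ℤ} (h : MinN x y z g M u) (ht : S x y z t)
    (htM : ¬ S x y z (M - t)) (hne : u ≠ t) : ¬ S x y z (u - t) := by
  obtain ⟨h1, h2, h3, h4, h5, h6⟩ := h
  rintro ⟨p, q, r, hp, hq, hr, he⟩
  rcases eq_or_lt_of_le hp with hp0 | hp0
  · rcases eq_or_lt_of_le hq with hq0 | hq0
    · rcases eq_or_lt_of_le hr with hr0 | hr0
      · apply hne
        rw [← hp0, ← hq0, ← hr0] at he
        linarith
      · have hw : S x y z (u - t - z) := ⟨p, q, r - 1, hp, hq, by linarith, by rw [he]; ring⟩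
        have h7 : S x y z (u - z) := by
          have := S_add ht hw
          have e : t + (u - t - z) = u - z := by ring
          rwa [e] at this
        have h8 := S_add (h6 h7) hw
        apply htM
        have e : M - (u - z) + (u - t - z) = M - t := by ring
        rwa [e] at h8
    · have hw : S x y z (u - t - y) := ⟨p, q - 1, r, hp, by linarith, hr, by rw [he]; ring⟩
      have h7 : S x y z (u - y) := by
        have := S_add ht hw
        have e : t + (u - t - y) = u - y := by ring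
        rwa [e] at this
      have h8 := S_add (h5 h7) hw
      apply htM
      have e : M - (u - y) + (u - t - y) = M - t := by ring
      rwa [e] at h8
  · have hw : S x y z (u - t - x) := ⟨p - 1, q, r, by linarith, hq, hr, by rw [he]; ring⟩
    have h7 : S x y z (u - x) := by
      have := S_add ht hw
      have e : t + (u - t - x) = u - x := by ring
      rwa [e] at this
    have h8 := S_add (h4 h7) hw
    apply htM
    have e : M - (u - x) + (u - t - x) = M - t := by ring
    rwa [e] at h8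

/-- at most three minimal elements when the factorization is unique -/
theorem three_of_unique {x y z g M a b c : ℤ} (hx : 0 < x) (hy : 0 < y) (hz : 0 < z)
    (hf : Fac x y z M a b c)
    (hu : ∀ p q r, Fac x y z M p q r → p = a ∧ q = b ∧ r = c) :
    ∃ T : Finset ℤ, T.card ≤ 3 ∧ ∀ u, MinN x y z g M u → u ∈ T := by
  obtain ⟨ha, hb, hc, hv⟩ := hf
  have mX : ¬ S x y z (M - (a + 1) * x) := by
    rintro ⟨p, q, r, hp, hq, hr, he⟩
    have := hu (p + a + 1) q r ⟨by linarith, hq, hr, by linarith⟩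
    omega
  have mY : ¬ S x y z (M - (b + 1) * y) := by
    rintro ⟨p, q, r, hp, hq, hr, he⟩
    have := hu p (q + b + 1) r ⟨hp, by linarith, hr, by linarith⟩
    omega
  have mZ : ¬ S x y z (M - (c + 1) * z) := by
    rintro ⟨p, q, r, hp, hq, hr, he⟩
    have := hu p q (r + c + 1) ⟨hp, hq, by linarith, by linarith⟩
    omega
  refine ⟨{(a + 1) * x, (b + 1) * y, (c + 1) * z}, Finset.card_le_three, ?_⟩
  intro u hmin
  obtain ⟨⟨p, q, r, hp, hq, hr, he⟩, h2, h3, h4⟩ := id hmin
  simp only [Finset.mem_insert, Finset.mem_singleton]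
  by_cases h5 : a + 1 ≤ p
  · left
    by_contra hne
    exact hmin.sep ⟨a + 1, 0, 0, by linarith, le_rfl, le_rfl, by ring⟩ mX hne
      ⟨p - (a + 1), q, r, by linarith, hq, hr, by rw [he]; ring⟩
  by_cases h6 : b + 1 ≤ q
  · right; left
    by_contra hne
    exact hmin.sep ⟨0, b + 1, 0, le_rfl, by linarith, le_rfl, by ring⟩ mY hne
      ⟨p, q - (b + 1), r, hp, by linarith, hr, by rw [he]; ring⟩
  by_cases h7 : c + 1 ≤ r
  · right; right
    by_contra hne
    exact hmin.sep ⟨0, 0, c + 1, le_rfl, le_rfl, by linarith, by ring⟩ mZ hne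
      ⟨p, q, r - (c + 1), hp, hq, by linarith, by rw [he]; ring⟩
  · exfalso
    exact h3 ⟨a - p, b - q, c - r, by omega, by omega, by omega, by
      linear_combination (-1) * hv - he⟩

/-- at most three minimal elements in the collinear case -/
theorem three_of_str {x y z g M : ℤ} (hx : 0 < x) (hy : 0 < y) (hz : 0 < z)
    (hg : ¬ S x y z g) (hMg : ¬ S x y z (M - g))
    (hcan : ∀ u, S x y z u → (∀ k, 1 ≤ k → ¬ S x y z (u - k * g)) → ¬ S x y z (M - u) →
      S x y z (M + g - u))
    (hstr : Str x y z M) :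
    ∃ T : Finset ℤ, T.card ≤ 3 ∧ ∀ u, MinN x y z g M u → u ∈ T := by
  classical
  obtain ⟨a, b, c, A, B, C, ha, haA, hB, hC, hb, hc, hrel, hMv, hPhi⟩ := hstr
  have hA : 0 < A := by linarith
  have mY : ¬ S x y z (M - (b + 1) * y) := by
    rintro ⟨p, q, r, hp, hq, hr, he⟩
    obtain ⟨i, hi, h1, h2, h3⟩ := hPhi p (q + b + 1) r hp (by linarith) hr (by linarith)
    have : 0 ≤ i * B := mul_nonneg hi hB
    linarith
  have mZ : ¬ S x y z (M - (c + 1) * z) := by
    rintro ⟨p, q, r, hp, hq, hr, he⟩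
    obtain ⟨i, hi, h1, h2, h3⟩ := hPhi p q (r + c + 1) hp hq (by linarith) (by linarith)
    have : 0 ≤ i * C := mul_nonneg hi hC
    linarith
  have mXY : ¬ S x y z (M - ((a + 1) * x + (b - B + 1) * y)) := by
    rintro ⟨p, q, r, hp, hq, hr, he⟩
    obtain ⟨i, hi, h1, h2, h3⟩ := hPhi (p + a + 1) (q + b - B + 1) r (by linarith)
      (by linarith) hr (by linarith)
    have hi1 : 1 ≤ i := by
      by_contra hcon
      have : i = 0 := by omega
      subst this
      linarith
    have : 1 * B ≤ i * B := mul_le_mul_of_nonneg_right hi1 hB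
    linarith
  have mXZ : ¬ S x y z (M - ((a + 1) * x + (c - C + 1) * z)) := by
    rintro ⟨p, q, r, hp, hq, hr, he⟩
    obtain ⟨i, hi, h1, h2, h3⟩ := hPhi (p + a + 1) q (r + c - C + 1) (by linarith)
      hq (by linarith) (by linarith)
    have hi1 : 1 ≤ i := by
      by_contra hcon
      have : i = 0 := by omega
      subst this
      linarith
    have : 1 * C ≤ i * C := mul_le_mul_of_nonneg_right hi1 hC
    linarith
  have sY : S x y z ((b + 1) * y) := ⟨0, b + 1, 0, le_rfl, by linarith, le_rfl, by ring⟩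
  have sZ : S x y z ((c + 1) * z) := ⟨0, 0, c + 1, le_rfl, le_rfl, by linarith, by ring⟩
  have sXY : S x y z ((a + 1) * x + (b - B + 1) * y) :=
    ⟨a + 1, b - B + 1, 0, by linarith, by linarith, le_rfl, by ring⟩
  have sXZ : S x y z ((a + 1) * x + (c - C + 1) * z) :=
    ⟨a + 1, 0, c - C + 1, by linarith, le_rfl, by linarith, by ring⟩
  -- every minimal element is one of the four
  have four : ∀ u, MinN x y z g M u → u = (b + 1) * y ∨ u = (c + 1) * z ∨
      u = (a + 1) * x + (b - B + 1) * y ∨ u = (a + 1) * x + (c - C + 1) * z := by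
    intro u hmin
    obtain ⟨⟨p, q, r, hp, hq, hr, he⟩, h2, h3, h4⟩ := id hmin
    obtain ⟨t, p', ht, hp', hp'A, hpt, hval⟩ := normalize hA hrel p q r hp
    have htB : 0 ≤ t * B := mul_nonneg ht hB
    have htC : 0 ≤ t * C := mul_nonneg ht hC
    by_cases k1 : b + 1 ≤ q + t * B
    · left
      by_contra hne
      exact hmin.sep sY mY hne ⟨p', q + t * B - (b + 1), r + t * C, hp', by linarith,
        by linarith, by linarith⟩
    by_cases k2 : c + 1 ≤ r + t * C
    · right; left
      by_contra hne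
      exact hmin.sep sZ mZ hne ⟨p', q + t * B, r + t * C - (c + 1), hp', by linarith,
        by linarith, by linarith⟩
    by_cases k0 : p' ≤ a
    · exact absurd ⟨a - p', b - (q + t * B), c - (r + t * C), by linarith, by omega, by omega,
        by linarith⟩ h3
    by_cases k3 : b - B + 1 ≤ q + t * B
    · right; right; left
      by_contra hne
      exact hmin.sep sXY mXY hne ⟨p' - (a + 1), q + t * B - (b - B + 1), r + t * C, by omega,
        by linarith, by linarith, by linarith⟩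
    by_cases k4 : c - C + 1 ≤ r + t * C
    · right; right; right
      by_contra hne
      exact hmin.sep sXZ mXZ hne ⟨p' - (a + 1), q + t * B, r + t * C - (c - C + 1), by omega,
        by linarith, by linarith, by linarith⟩
    · exact absurd ⟨a + A - p', b - B - (q + t * B), c - C - (r + t * C), by linarith, by omega,
        by omega, by linarith⟩ h3
  obtain ⟨Y, hY⟩ : ∃ Y, Y = (b + 1) * y := ⟨_, rfl⟩
  obtain ⟨Z, hZ⟩ : ∃ Z, Z = (c + 1) * z := ⟨_, rfl⟩
  obtain ⟨V, hV⟩ : ∃ V, V = (a + 1) * x + (b - B + 1) * y := ⟨_, rfl⟩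
  obtain ⟨W, hW⟩ : ∃ W, W = (a + 1) * x + (c - C + 1) * z := ⟨_, rfl⟩
  rw [← hY, ← hZ, ← hV, ← hW] at four
  have drop : ∀ T : Finset ℤ, T.card ≤ 3 → (∀ u, MinN x y z g M u →
      (u = Y ∨ u = Z ∨ u = V ∨ u = W) → u ∈ T) →
      ∃ T : Finset ℤ, T.card ≤ 3 ∧ ∀ u, MinN x y z g M u → u ∈ T :=
    fun T hT h => ⟨T, hT, fun u hu => h u hu (four u hu)⟩
  by_cases e1 : Y = Z
  · refine drop {Z, V, W} Finset.card_le_three ?_
    rintro u hu (h | h | h | h) <;> simp [h, e1]
  by_cases e2 : Y = V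
  · refine drop {Z, V, W} Finset.card_le_three ?_
    rintro u hu (h | h | h | h) <;> simp [h, e2]
  by_cases e3 : Y = W
  · refine drop {Z, V, W} Finset.card_le_three ?_
    rintro u hu (h | h | h | h) <;> simp [h, e3]
  by_cases e4 : Z = V
  · refine drop {Y, V, W} Finset.card_le_three ?_
    rintro u hu (h | h | h | h) <;> simp [h, e4]
  by_cases e5 : Z = W
  · refine drop {Y, V, W} Finset.card_le_three ?_
    rintro u hu (h | h | h | h) <;> simp [h, e5]
  by_cases e6 : V = W
  · refine drop {Y, Z, W} Finset.card_le_three ?_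
    rintro u hu (h | h | h | h) <;> simp [h, e6]
  by_cases nY : MinN x y z g M Y
  swap
  · refine drop {Z, V, W} Finset.card_le_three ?_
    rintro u hu (h | h | h | h)
    · exact absurd (h ▸ hu) nY
    all_goals simp [h]
  by_cases nZ : MinN x y z g M Z
  swap
  · refine drop {Y, V, W} Finset.card_le_three ?_
    rintro u hu (h | h | h | h)
    · simp [h]
    · exact absurd (h ▸ hu) nZ
    all_goals simp [h]
  by_cases nV : MinN x y z g M V
  swap
  · refine drop {Y, Z, W} Finset.card_le_three ?_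
    rintro u hu (h | h | h | h)
    · simp [h]
    · simp [h]
    · exact absurd (h ▸ hu) nV
    · simp [h]
  by_cases nW : MinN x y z g M W
  swap
  · refine drop {Y, Z, V} Finset.card_le_three ?_
    rintro u hu (h | h | h | h)
    · simp [h]
    · simp [h]
    · simp [h]
    · exact absurd (h ▸ hu) nW
  exfalso
  rw [← hY] at mY sY
  rw [← hZ] at mZ sZ
  rw [← hV] at mXY sXY
  rw [← hW] at mXZ sXZ
  have VY := nV.sep sY mY (Ne.symm e2)
  have WZ := nW.sep sZ mZ (Ne.symm e5)
  have hB1 : 1 ≤ B := by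
    by_contra hcon
    have : B = 0 := by omega
    subst this
    exact VY ⟨a + 1, 0, 0, by linarith, le_rfl, le_rfl, by rw [hV, hY]; ring⟩
  have hC1 : 1 ≤ C := by
    by_contra hcon
    have : C = 0 := by omega
    subst this
    exact WZ ⟨a + 1, 0, 0, by linarith, le_rfl, le_rfl, by rw [hW, hZ]; ring⟩
  have haA2 : a + 2 ≤ A := by
    by_contra hcon
    have : A = a + 1 := by omega
    subst this
    exact VY ⟨0, 0, C, le_rfl, le_rfl, by linarith, by
      rw [hV, hY]; linear_combination hrel⟩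
  have hH : H x y z g M a b c A B C := {
    hx := hx
    hy := hy
    hz := hz
    hrel := hrel
    hM := hMv
    ha := ha
    haA := haA2
    hB := hB1
    hC := hC1
    hb := hb
    hc := hc
    hPhi := hPhi
    hg := hg
    hMg := hMg
    mY := by rw [← hY]; exact mY
    mZ := by rw [← hZ]; exact mZ
    mXY := by rw [← hV]; exact mXY
    mXZ := by rw [← hW]; exact mXZ
    apY := by rw [← hY]; exact nY.2.1
    apZ := by rw [← hZ]; exact nZ.2.1
    apXY := by rw [← hV]; exact nV.2.1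
    apXZ := by rw [← hW]; exact nW.2.1
    can := hcan
    YZ := by rw [← hY, ← hZ]; exact nY.sep sZ mZ e1
    ZY := by rw [← hY, ← hZ]; exact nZ.sep sY mY (Ne.symm e1)
    Y_XY := by rw [← hY, ← hV]; exact nY.sep sXY mXY e2
    Y_XZ := by rw [← hY, ← hW]; exact nY.sep sXZ mXZ e3
    Z_XY := by rw [← hZ, ← hV]; exact nZ.sep sXY mXY e4
    Z_XZ := by rw [← hZ, ← hW]; exact nZ.sep sXZ mXZ e5
    XY_Y := by rw [← hY, ← hV]; exact VY
    XY_Z := by rw [← hZ, ← hV]; exact nV.sep sZ mZ (Ne.symm e4)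
    XZ_Y := by rw [← hY, ← hW]; exact nW.sep sY mY (Ne.symm e3)
    XZ_Z := by rw [← hZ, ← hW]; exact WZ
    XY_XZ := by rw [← hV, ← hW]; exact nV.sep sXZ mXZ e6
    XZ_XY := by rw [← hV, ← hW]; exact nW.sep sXY mXY (Ne.symm e6) }
  exact hH.false

/-- the main combinatorial statement -/
theorem three_minimal (x y z g M : ℤ) (hg : 0 < g) (hgx : g < x) (hgy : g < y) (hgz : g < z)
    (hgM : g < M) (hSM : S x y z M) (hM : ∀ k : ℤ, 1 ≤ k → ¬ S x y z (M - k * g))
    (hcan : ∀ u, S x y z u → (∀ k, 1 ≤ k → ¬ S x y z (u - k * g)) → ¬ S x y z (M - u) →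
      S x y z (M + g - u)) :
    ∃ T : Finset ℤ, T.card ≤ 3 ∧ ∀ u, MinN x y z g M u → u ∈ T := by
  by_cases hne : ∃ u, MinN x y z g M u
  swap
  · exact ⟨∅, by simp, fun u hu => absurd ⟨u, hu⟩ hne⟩
  obtain ⟨u, hu⟩ := hne
  have hx : 0 < x := by linarith
  have hy : 0 < y := by linarith
  have hz : 0 < z := by linarith
  have hM0 : 0 < M := by linarith
  have hgS : ¬ S x y z g := S_g_false hg hgx hgy hgz
  have hMg : ¬ S x y z (M - g) := by
    have := hM 1 le_rfl
    rwa [one_mul] at this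
  -- the integer vector of value g
  obtain ⟨p1, q1, r1, hp1, hq1, hr1, e1⟩ := hu.1
  obtain ⟨p2, q2, r2, hp2, hq2, hr2, e2⟩ := hcan u hu.1 hu.2.1 hu.2.2.1
  obtain ⟨p3, q3, r3, hp3, hq3, hr3, e3⟩ := hSM
  have hγ : (p1 + p2 - p3) * x + (q1 + q2 - q3) * y + (r1 + r2 - r3) * z = g := by
    linear_combination (-1) * e1 - e2 + e3
  have hcol : Col x y z M := by
    intro P1 Q1 R1 P2 Q2 R2 P3 Q3 R3 h1 h2 h3
    exact kl1 x y z g M hg hgx hgy hgz hgM hM _ _ _ hγ P1 Q1 R1 P2 Q2 R2 P3 Q3 R3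
      h1.1 h1.2.1 h1.2.2.1 h2.1 h2.2.1 h2.2.2.1 h3.1 h3.2.1 h3.2.2.1 h1.2.2.2 h2.2.2.2 h3.2.2.2
  rcases structure_cases hx hy hz hM0 hcol ⟨p3, q3, r3, hp3, hq3, hr3, e3.symm⟩ with
    ⟨a, b, c, hf, hun⟩ | h | h | h
  · exact three_of_unique hx hy hz hf hun
  · exact three_of_str hx hy hz hgS hMg hcan h
  · obtain ⟨T, hT, hT2⟩ := three_of_str hy hx hz (fun hs => hgS (S_swap12 hs))
      (fun hs => hMg (S_swap12 hs))
      (fun u h1 h2 h3 => S_swap12 (hcan u (S_swap12 h1) (fun k hk hs => h2 k hk (S_swap12 hs))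
        (fun hs => h3 (S_swap12 hs)))) h
    exact ⟨T, hT, fun u hu => hT2 u hu.swap12⟩
  · obtain ⟨T, hT, hT2⟩ := three_of_str hz hx hy (fun hs => hgS (S_rot' hs))
      (fun hs => hMg (S_rot' hs))
      (fun u h1 h2 h3 => S_rot (hcan u (S_rot' h1) (fun k hk hs => h2 k hk (S_rot hs))
        (fun hs => h3 (S_rot hs)))) h
    exact ⟨T, hT, fun u hu => hT2 u hu.rot⟩

end Pool.Agent.Helper24.CanRed
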