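import Pool.Agent.Helper24.CanRed.CaseII

set_option autoImplicit false

namespace Pool.Agent.Helper24.CanRed

/-- `(p, q, r)` is a factorization of `M` -/
def Fac (x y z M p q r : ℤ) : Prop := 0 ≤ p ∧ 0 ≤ q ∧ 0 ≤ r ∧ p * x + q * y + r * z = M

/-- all factorizations lie on one line -/
def Col (x y z M : ℤ) : Prop := ∀ p1 q1 r1 p2 q2 r2 p3 q3 r3 : ℤ,
  Fac x y z M p1 q1 r1 → Fac x y z M p2 q2 r2 → Fac x y z M p3 q3 r3 →
  p1 * (q2 * r3 - q3 * r2) - q1 * (p2 * r3 - p3 * r2) + r1 * (p2 * q3 - p3 * q2) = 0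

/-- the structure of a collinear set of factorizations -/
def Str (x y z M : ℤ) : Prop := ∃ a b c A B C : ℤ, 0 ≤ a ∧ a < A ∧ 0 ≤ B ∧ 0 ≤ C ∧ B ≤ b ∧ C ≤ c ∧
  A * x = B * y + C * z ∧ M = a * x + b * y + c * z ∧
  ∀ p q r : ℤ, 0 ≤ p → 0 ≤ q → 0 ≤ r → p * x + q * y + r * z = M →
    ∃ i, 0 ≤ i ∧ p = a + i * A ∧ q = b - i * B ∧ r = c - i * C

theorem Col.swap12 {x y z M : ℤ} (h : Col x y z M) : Col y x z M := by
  intro p1 q1 r1 p2 q2 r2 p3 q3 r3 h1 h2 h3
  have := h q1 p1 r1 q2 p2 r2 q3 p3 r3 ⟨h1.2.1, h1.1, h1.2.2.1, by linarith [h1.2.2.2]⟩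
    ⟨h2.2.1, h2.1, h2.2.2.1, by linarith [h2.2.2.2]⟩ ⟨h3.2.1, h3.1, h3.2.2.1, by linarith [h3.2.2.2]⟩
  linear_combination (-1) * this

theorem Col.rot {x y z M : ℤ} (h : Col x y z M) : Col z x y M := by
  intro p1 q1 r1 p2 q2 r2 p3 q3 r3 h1 h2 h3
  have := h q1 r1 p1 q2 r2 p2 q3 r3 p3 ⟨h1.2.1, h1.2.2.1, h1.1, by linarith [h1.2.2.2]⟩
    ⟨h2.2.1, h2.2.2.1, h2.1, by linarith [h2.2.2.2]⟩ ⟨h3.2.1, h3.2.2.1, h3.1, by linarith [h3.2.2.2]⟩
  linear_combination this

theorem Col.par0 {x y z M : ℤ} (hx : 0 < x) (hM : 0 < M)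
    (h : Col x y z M) {p1 q1 r1 p2 q2 r2 p3 q3 r3 : ℤ}
    (h1 : Fac x y z M p1 q1 r1) (h2 : Fac x y z M p2 q2 r2) (h3 : Fac x y z M p3 q3 r3) :
    (p1 - p2) * (q3 - q2) = (q1 - q2) * (p3 - p2) ∧
    (p1 - p2) * (r3 - r2) = (r1 - r2) * (p3 - p2) := by
  have hd := h p1 q1 r1 p2 q2 r2 p3 q3 r3 h1 h2 h3
  obtain ⟨_, _, _, e1⟩ := h1
  obtain ⟨_, _, _, e2⟩ := h2
  obtain ⟨_, _, _, e3⟩ := h3
  -- w1 = (q1-q2)(r3-r2) - (r1-r2)(q3-q2)
  have hw1 : M * ((q1 - q2) * (r3 - r2) - (r1 - r2) * (q3 - q2)) = 0 := by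
    have f1 : (p1 - p2) * x + (q1 - q2) * y + (r1 - r2) * z = 0 := by linarith
    have f3 : (p3 - p2) * x + (q3 - q2) * y + (r3 - r2) * z = 0 := by linarith
    -- x w2 = y w1, x w3 = z w1
    have g2 : x * ((r1 - r2) * (p3 - p2) - (p1 - p2) * (r3 - r2)) =
        y * ((q1 - q2) * (r3 - r2) - (r1 - r2) * (q3 - q2)) := by
      linear_combination (r1 - r2) * f3 - (r3 - r2) * f1
    have g3 : x * ((p1 - p2) * (q3 - q2) - (q1 - q2) * (p3 - p2)) =
        z * ((q1 - q2) * (r3 - r2) - (r1 - r2) * (q3 - q2)) := by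
      linear_combination (q3 - q2) * f1 - (q1 - q2) * f3
    have hd2 : p2 * ((q1 - q2) * (r3 - r2) - (r1 - r2) * (q3 - q2)) +
        q2 * ((r1 - r2) * (p3 - p2) - (p1 - p2) * (r3 - r2)) +
        r2 * ((p1 - p2) * (q3 - q2) - (q1 - q2) * (p3 - p2)) = 0 := by
      linear_combination (-1) * hd
    rw [← e2]
    linear_combination x * hd2 - q2 * g2 - r2 * g3
  have hw1' : (q1 - q2) * (r3 - r2) - (r1 - r2) * (q3 - q2) = 0 := by
    rcases mul_eq_zero.mp hw1 with h | h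
    · exact absurd h hM.ne'
    · exact h
  have f1 : (p1 - p2) * x + (q1 - q2) * y + (r1 - r2) * z = 0 := by linarith
  have f3 : (p3 - p2) * x + (q3 - q2) * y + (r3 - r2) * z = 0 := by linarith
  constructor
  · have g3 : x * ((p1 - p2) * (q3 - q2) - (q1 - q2) * (p3 - p2)) = 0 := by
      linear_combination (q3 - q2) * f1 - (q1 - q2) * f3 + z * hw1'
    rcases mul_eq_zero.mp g3 with h | h
    · exact absurd h hx.ne'
    · linarith
  · have g2 : x * ((p1 - p2) * (r3 - r2) - (r1 - r2) * (p3 - p2)) = 0 := by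
      linear_combination (-(r1 - r2)) * f3 + (r3 - r2) * f1 - y * hw1'
    rcases mul_eq_zero.mp g2 with h | h
    · exact absurd h hx.ne'
    · linarith

/-- any two differences of factorizations are parallel -/
theorem Col.par {x y z M : ℤ} (hx : 0 < x) (hM : 0 < M)
    (h : Col x y z M) {p1 q1 r1 p2 q2 r2 p3 q3 r3 p4 q4 r4 : ℤ}
    (h1 : Fac x y z M p1 q1 r1) (h2 : Fac x y z M p2 q2 r2) (h3 : Fac x y z M p3 q3 r3)
    (h4 : Fac x y z M p4 q4 r4) :
    (p1 - p2) * (q3 - q4) = (q1 - q2) * (p3 - p4) ∧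
    (p1 - p2) * (r3 - r4) = (r1 - r2) * (p3 - p4) := by
  have A := h.par0 hx hM h1 h4 h3
  have B := h.par0 hx hM h2 h4 h3
  constructor
  · linear_combination A.1 - B.1
  · linear_combination A.2 - B.2

theorem Str_of {x y z M : ℤ} (hx : 0 < x) (hM : 0 < M)
    (h : Col x y z M) {p1 q1 r1 p2 q2 r2 : ℤ}
    (h1 : Fac x y z M p1 q1 r1) (h2 : Fac x y z M p2 q2 r2)
    (hp : p2 < p1) (hq : q1 ≤ q2) (hr : r1 ≤ r2) : Str x y z M := by
  classical
  -- minimal positive difference of first coordinates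
  have hex : ∃ n : ℕ, 0 < n ∧ ∃ u1 u2 u3 v1 v2 v3 : ℤ, Fac x y z M u1 u2 u3 ∧
      Fac x y z M v1 v2 v3 ∧ u1 - v1 = (n : ℤ) := by
    refine ⟨(p1 - p2).toNat, by omega, p1, q1, r1, p2, q2, r2, h1, h2, ?_⟩
    rw [Int.toNat_of_nonneg (by linarith)]
  obtain ⟨n, ⟨hn, u1, u2, u3, v1, v2, v3, hu, hv, huv⟩, hmin⟩ :
      ∃ n : ℕ, (0 < n ∧ ∃ u1 u2 u3 v1 v2 v3 : ℤ, Fac x y z M u1 u2 u3 ∧
      Fac x y z M v1 v2 v3 ∧ u1 - v1 = (n : ℤ)) ∧ ∀ m : ℕ, m < n →
      ¬ (0 < m ∧ ∃ u1 u2 u3 v1 v2 v3 : ℤ, Fac x y z M u1 u2 u3 ∧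
      Fac x y z M v1 v2 v3 ∧ u1 - v1 = (m : ℤ)) :=
    ⟨Nat.find hex, Nat.find_spec hex, fun m hm => Nat.find_min hex hm⟩
  -- minimal first coordinate
  have hex2 : ∃ m : ℕ, ∃ b c : ℤ, Fac x y z M (m : ℤ) b c := by
    refine ⟨p1.toNat, q1, r1, ?_⟩
    rw [Int.toNat_of_nonneg h1.1]; exact h1
  obtain ⟨a, ⟨b, c, ha⟩, hamin⟩ : ∃ m : ℕ, (∃ b c : ℤ, Fac x y z M (m : ℤ) b c) ∧
      ∀ m' : ℕ, m' < m → ¬ ∃ b c : ℤ, Fac x y z M (m' : ℤ) b c :=
    ⟨Nat.find hex2, Nat.find_spec hex2, fun m hm => Nat.find_min hex2 hm⟩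
  obtain ⟨A, hA⟩ : ∃ A : ℤ, A = n := ⟨_, rfl⟩
  obtain ⟨B, hB⟩ : ∃ B : ℤ, B = v2 - u2 := ⟨_, rfl⟩
  obtain ⟨C, hC⟩ : ∃ C : ℤ, C = v3 - u3 := ⟨_, rfl⟩
  have hApos : 0 < A := by rw [hA]; exact_mod_cast hn
  have hpar := h.par hx hM h1 h2 hu hv
  have hB0 : 0 ≤ B := by
    have e : (p1 - p2) * B = (q2 - q1) * A := by
      rw [hB, hA, ← huv]; linear_combination (-1) * hpar.1
    have : 0 ≤ (p1 - p2) * B := by rw [e]; exact mul_nonneg (by linarith) hApos.le
    exact nonneg_of_mul_nonneg_right this (by linarith)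
  have hC0 : 0 ≤ C := by
    have e : (p1 - p2) * C = (r2 - r1) * A := by
      rw [hC, hA, ← huv]; linear_combination (-1) * hpar.2
    have : 0 ≤ (p1 - p2) * C := by rw [e]; exact mul_nonneg (by linarith) hApos.le
    exact nonneg_of_mul_nonneg_right this (by linarith)
  have hrel : A * x = B * y + C * z := by
    rw [hA, ← huv, hB, hC]
    have e1 := hu.2.2.2
    have e2 := hv.2.2.2
    linarith
  -- general structure
  have hstr : ∀ p q r : ℤ, Fac x y z M p q r →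
      ∃ i, 0 ≤ i ∧ p = a + i * A ∧ q = b - i * B ∧ r = c - i * C := by
    intro p q r hf
    have hpa : (a : ℤ) ≤ p := by
      by_contra hcon
      push Not at hcon
      refine hamin p.toNat (by have := hf.1; omega) ⟨q, r, ?_⟩
      rw [Int.toNat_of_nonneg hf.1]; exact hf
    -- divisibility
    obtain ⟨k, hk⟩ : ∃ k : ℤ, k = (p - a) / A := ⟨_, rfl⟩
    obtain ⟨s, hs⟩ : ∃ s : ℤ, s = (p - a) % A := ⟨_, rfl⟩
    have hks : p - a = k * A + s := by
      rw [hk, hs]; have := Int.emod_add_mul_ediv (p - a) A; linarith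
    have hs0 : 0 ≤ s := by rw [hs]; exact Int.emod_nonneg _ hApos.ne'
    have hsA : s < A := by rw [hs]; exact Int.emod_lt_of_pos _ hApos
    have hk0 : 0 ≤ k := by rw [hk]; exact Int.ediv_nonneg (by linarith) hApos.le
    have hsz : s = 0 := by
      by_contra hne
      refine hmin s.toNat (by omega) ⟨by omega, p - k * A, q + k * B, r + k * C, a, b, c, ?_, ha, ?_⟩
      · have e1 : 0 ≤ k * B := mul_nonneg hk0 hB0
        have e2 : 0 ≤ k * C := mul_nonneg hk0 hC0
        have ha0 : (0:ℤ) ≤ a := ha.1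
        refine ⟨by linarith, by linarith [hf.2.1], by linarith [hf.2.2.1], ?_⟩
        linear_combination hf.2.2.2 - k * hrel
      · rw [Int.toNat_of_nonneg hs0]; linarith
    have hpar2 := h.par hx hM hf ha hu hv
    refine ⟨k, hk0, by linarith, ?_, ?_⟩
    · have e : A * (q - b) = A * (-(k * B)) := by
        have h5 := hpar2.1
        rw [huv, ← hA] at h5
        have h6 : p - a = k * A := by linarith
        rw [h6] at h5
        have h7 : u2 - v2 = -B := by linarith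
        rw [h7] at h5
        linarith
      have := mul_left_cancel₀ hApos.ne' e
      linarith
    · have e : A * (r - c) = A * (-(k * C)) := by
        have h5 := hpar2.2
        rw [huv, ← hA] at h5
        have h6 : p - a = k * A := by linarith
        rw [h6] at h5
        have h7 : u3 - v3 = -C := by linarith
        rw [h7] at h5
        linarith
      have := mul_left_cancel₀ hApos.ne' e
      linarith
  obtain ⟨i, hi, k1, k2, k3⟩ := hstr _ _ _ hu
  obtain ⟨i', hi', k1', k2', k3'⟩ := hstr _ _ _ hv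
  have hii : i = i' + 1 := by
    have : (i - i' - 1) * A = 0 := by
      have : A = u1 - v1 := by rw [hA, huv]
      linarith
    rcases mul_eq_zero.mp this with h | h
    · linarith
    · exact absurd h hApos.ne'
  have hi1 : 1 ≤ i := by linarith
  have hBb : B ≤ b := by
    have e1 : 1 * B ≤ i * B := mul_le_mul_of_nonneg_right hi1 hB0
    have := hu.2.1
    linarith
  have hCc : C ≤ c := by
    have e1 : 1 * C ≤ i * C := mul_le_mul_of_nonneg_right hi1 hC0
    have := hu.2.2.1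
    linarith
  refine ⟨a, b, c, A, B, C, ha.1, ?_, hB0, hC0, hBb, hCc, hrel, ha.2.2.2.symm, ?_⟩
  · by_contra hcon
    push Not at hcon
    refine hamin ((a : ℤ) - A).toNat (by omega) ⟨b + B, c + C, ?_⟩
    rw [Int.toNat_of_nonneg (by linarith)]
    refine ⟨by linarith, by linarith [ha.2.1], by linarith [ha.2.2.1], ?_⟩
    linear_combination ha.2.2.2 - hrel
  · intro p q r hp hq hr he
    exact hstr p q r ⟨hp, hq, hr, he⟩

theorem structure_cases {x y z M : ℤ} (hx : 0 < x) (hy : 0 < y) (hz : 0 < z) (hM : 0 < M)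
    (h : Col x y z M) (hS : ∃ p q r, Fac x y z M p q r) :
    (∃ a b c : ℤ, Fac x y z M a b c ∧ ∀ p q r, Fac x y z M p q r → p = a ∧ q = b ∧ r = c) ∨
    Str x y z M ∨ Str y x z M ∨ Str z x y M := by
  obtain ⟨a, b, c, habc⟩ := hS
  by_cases hu : ∀ p q r, Fac x y z M p q r → p = a ∧ q = b ∧ r = c
  · exact Or.inl ⟨a, b, c, habc, hu⟩
  right
  push Not at hu
  obtain ⟨p, q, r, hf, hne⟩ := hu
  have e1 := habc.2.2.2
  have e2 := hf.2.2.2
  have P12 : ∀ {u v w : ℤ}, Fac x y z M u v w → Fac y x z M v u w := fun h =>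
    ⟨h.2.1, h.1, h.2.2.1, by linarith [h.2.2.2]⟩
  have P3 : ∀ {u v w : ℤ}, Fac x y z M u v w → Fac z x y M w u v := fun h =>
    ⟨h.2.2.1, h.1, h.2.1, by linarith [h.2.2.2]⟩
  have key : (p - a) * x + (q - b) * y + (r - c) * z = 0 := by linarith
  -- sign analysis
  rcases lt_trichotomy p a with hp | hp | hp
  · -- p < a
    rcases le_or_gt q b with hq | hq
    · -- q ≤ b, then r > c
      have hr : c < r := by
        by_contra hcon
        push Not at hcon
        have t1 : (p - a) * x < 0 := mul_neg_of_neg_of_pos (by linarith) hx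
        have t2 : (q - b) * y ≤ 0 := mul_nonpos_of_nonpos_of_nonneg (by linarith) hy.le
        have t3 : (r - c) * z ≤ 0 := mul_nonpos_of_nonpos_of_nonneg (by linarith) hz.le
        linarith
      exact Or.inr (Or.inr (Str_of hz hM h.rot (P3 hf) (P3 habc) hr hp.le hq))
    · rcases le_or_gt r c with hr | hr
      · exact Or.inr (Or.inl (Str_of hy hM h.swap12 (P12 hf) (P12 habc) hq hp.le hr))
      · exact Or.inl (Str_of hx hM h habc hf hp hq.le hr.le)
  · -- p = a
    rcases lt_trichotomy q b with hq | hq | hq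
    · have hr : c < r := by
        by_contra hcon
        push Not at hcon
        have t2 : (q - b) * y < 0 := mul_neg_of_neg_of_pos (by linarith) hy
        have t3 : (r - c) * z ≤ 0 := mul_nonpos_of_nonpos_of_nonneg (by linarith) hz.le
        rw [hp] at key
        linarith
      exact Or.inr (Or.inr (Str_of hz hM h.rot (P3 hf) (P3 habc) hr hp.le hq.le))
    · exfalso
      rw [hp, hq] at key
      have : (r - c) * z = 0 := by linarith
      rcases mul_eq_zero.mp this with h | h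
      · exact hne hp hq (by linarith)
      · exact hz.ne' h
    · have hr : r < c := by
        by_contra hcon
        push Not at hcon
        have t2 : 0 < (q - b) * y := mul_pos (by linarith) hy
        have t3 : 0 ≤ (r - c) * z := mul_nonneg (by linarith) hz.le
        rw [hp] at key
        linarith
      exact Or.inr (Or.inl (Str_of hy hM h.swap12 (P12 hf) (P12 habc) hq hp.le hr.le))
  · -- a < p
    rcases le_or_gt b q with hq | hq
    · have hr : r < c := by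
        by_contra hcon
        push Not at hcon
        have t1 : 0 < (p - a) * x := mul_pos (by linarith) hx
        have t2 : 0 ≤ (q - b) * y := mul_nonneg (by linarith) hy.le
        have t3 : 0 ≤ (r - c) * z := mul_nonneg (by linarith) hz.le
        linarith
      exact Or.inr (Or.inr (Str_of hz hM h.rot (P3 habc) (P3 hf) hr hp.le hq))
    · rcases le_or_gt c r with hr | hr
      · exact Or.inr (Or.inl (Str_of hy hM h.swap12 (P12 habc) (P12 hf) hq hp.le hr))
      · exact Or.inl (Str_of hx hM h hf habc hp hq.le hr.le)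

end Pool.Agent.Helper24.CanRed
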